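import Pool.Agent.H487R3.Cau.Stmts

/-!
# `TaskDense` of project H487-CAUCHY
-/

set_option autoImplicit false

open MeasureTheory Filter Set Topology
open scoped ENNReal NNReal

namespace Pool.Agent.H250R3.CauDense

open Pool.Agent.H487R3.Cau

/-- Lebesgue measure on `[0,1)`. -/
noncomputable abbrev mu : Measure ℝ := volume.restrict (Ico (0 : ℝ) 1)

instance instProb : IsProbabilityMeasure mu := ⟨by simp [mu]⟩

lemma den_lower {a : ℝ → ℂ} (ha : LipschitzWith (1 / 10) a) {δ : ℝ} (hδ : 0 < δ) (x y : ℝ) :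
    δ / 3 ≤ ‖G a y - G a x + δ * Complex.I‖ := by
  have h1 : ‖a y - a x‖ ≤ (1 / 10) * |y - x| := by
    have := ha.dist_le_mul y x
    simpa [dist_eq_norm, Real.dist_eq] using this
  set w := G a y - G a x + δ * Complex.I with hw
  have hre : y - x = w.re - (a y - a x).re := by simp [hw, G]; ring
  have him : δ = w.im - (a y - a x).im := by simp [hw, G]
  have r1 : |(a y - a x).re| ≤ ‖a y - a x‖ := Complex.abs_re_le_norm _
  have r2 : |(a y - a x).im| ≤ ‖a y - a x‖ := Complex.abs_im_le_norm _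
  have r3 : |w.re| ≤ ‖w‖ := Complex.abs_re_le_norm _
  have r4 : |w.im| ≤ ‖w‖ := Complex.abs_im_le_norm _
  have e1 : |y - x| ≤ |w.re| + |(a y - a x).re| := by
    conv_lhs => rw [hre]
    exact abs_sub _ _
  have e2 : δ ≤ |w.im| + |(a y - a x).im| := by
    calc δ ≤ |δ| := le_abs_self _
      _ = |w.im - (a y - a x).im| := by rw [← him]
      _ ≤ _ := abs_sub _ _
  linarith

lemma den_ne {a : ℝ → ℂ} (ha : LipschitzWith (1 / 10) a) {δ : ℝ} (hδ : 0 < δ) (x y : ℝ) :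
    G a y - G a x + δ * Complex.I ≠ 0 := by
  have := den_lower ha hδ x y
  intro h
  rw [h, norm_zero] at this
  linarith

lemma K_bound {a : ℝ → ℂ} (ha : LipschitzWith (1 / 10) a) {δ : ℝ} (hδ : 0 < δ) (x y : ℝ) :
    ‖K a δ x y‖ ≤ 3 / δ := by
  rw [K, norm_inv, show 3 / δ = (δ / 3)⁻¹ by field_simp]
  exact inv_anti₀ (by positivity) (den_lower ha hδ x y)

lemma K_cont {a : ℝ → ℂ} (ha : LipschitzWith (1 / 10) a) {δ : ℝ} (hδ : 0 < δ) :
    Continuous (fun z : ℝ × ℝ => K a δ z.1 z.2) := by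
  unfold K
  refine Continuous.inv₀ ?_ (fun z => den_ne ha hδ z.1 z.2)
  have hc : Continuous a := ha.continuous
  unfold G
  fun_prop

/-- The full kernel. -/
noncomputable def kk (a : ℝ → ℂ) (δ : ℝ) (z : ℝ × ℝ) : ℂ :=
  (1 + deriv a z.1) * (1 + deriv a z.2) * K a δ z.1 z.2

lemma deriv_le {a : ℝ → ℂ} (ha : LipschitzWith (1 / 10) a) (x : ℝ) : ‖deriv a x‖ ≤ 1 / 10 := by
  have := norm_deriv_le_of_lipschitz (x₀ := x) ha
  simpa using this

lemma b_le {a : ℝ → ℂ} (ha : LipschitzWith (1 / 10) a) (x : ℝ) : ‖1 + deriv a x‖ ≤ 11 / 10 := by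
  calc ‖1 + deriv a x‖ ≤ ‖(1 : ℂ)‖ + ‖deriv a x‖ := norm_add_le _ _
    _ ≤ 1 + 1 / 10 := by rw [norm_one]; linarith [deriv_le ha x]
    _ = 11 / 10 := by norm_num

lemma b_ge {a : ℝ → ℂ} (ha : LipschitzWith (1 / 10) a) (x : ℝ) : 9 / 10 ≤ ‖1 + deriv a x‖ := by
  have h : ‖(1 : ℂ)‖ ≤ ‖1 + deriv a x‖ + ‖deriv a x‖ := by
    calc ‖(1 : ℂ)‖ = ‖(1 + deriv a x) - deriv a x‖ := by congr 1; ring
      _ ≤ _ := norm_sub_le _ _
  rw [norm_one] at h
  linarith [deriv_le ha x]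

lemma kk_meas {a : ℝ → ℂ} (ha : LipschitzWith (1 / 10) a) {δ : ℝ} (hδ : 0 < δ) :
    Measurable (kk a δ) := by
  unfold kk
  have h1 : Measurable (deriv a) := measurable_deriv a
  refine Measurable.mul (Measurable.mul ?_ ?_) (K_cont ha hδ).measurable
  · exact measurable_const.add (h1.comp measurable_fst)
  · exact measurable_const.add (h1.comp measurable_snd)

lemma kk_bound {a : ℝ → ℂ} (ha : LipschitzWith (1 / 10) a) {δ : ℝ} (hδ : 0 < δ) (z : ℝ × ℝ) :
    ‖kk a δ z‖ ≤ 4 / δ := by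
  unfold kk
  rw [norm_mul, norm_mul]
  have h1 := b_le ha z.1
  have h2 := b_le ha z.2
  have h3 := K_bound ha hδ z.1 z.2
  have h0 : 0 ≤ 3 / δ := by positivity
  calc ‖1 + deriv a z.1‖ * ‖1 + deriv a z.2‖ * ‖K a δ z.1 z.2‖
      ≤ (11 / 10) * (11 / 10) * (3 / δ) := by gcongr
    _ ≤ 4 / δ := by
      rw [show (11 / 10 : ℝ) * (11 / 10) * (3 / δ) = (363 / 100) / δ by ring]
      gcongr
      norm_num

/-- The bilinear form. -/
noncomputable def T (a : ℝ → ℂ) (δ : ℝ) (F H : ℝ → ℂ) : ℂ :=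
  ∫ z, F z.1 * H z.2 * kk a δ z ∂(mu.prod mu)

lemma int_T {a : ℝ → ℂ} (ha : LipschitzWith (1 / 10) a) {δ : ℝ} (hδ : 0 < δ) {F H : ℝ → ℂ}
    (hF : Integrable F mu) (hH : Integrable H mu) :
    Integrable (fun z : ℝ × ℝ => F z.1 * H z.2 * kk a δ z) (mu.prod mu) :=
  (hF.mul_prod hH).mul_bdd (kk_meas ha hδ).aestronglyMeasurable
    (Eventually.of_forall (kk_bound ha hδ))

lemma T_bound {a : ℝ → ℂ} (ha : LipschitzWith (1 / 10) a) {δ : ℝ} (hδ : 0 < δ) {F H : ℝ → ℂ}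
    (hF : Integrable F mu) (hH : Integrable H mu) :
    ‖T a δ F H‖ ≤ 4 / δ * ((∫ x, ‖F x‖ ∂mu) * (∫ x, ‖H x‖ ∂mu)) := by
  have hI : Integrable (fun z : ℝ × ℝ => ‖F z.1‖ * ‖H z.2‖) (mu.prod mu) :=
    hF.norm.mul_prod hH.norm
  have h1 : ‖T a δ F H‖ ≤ ∫ z, 4 / δ * (‖F z.1‖ * ‖H z.2‖) ∂(mu.prod mu) := by
    refine norm_integral_le_of_norm_le (hI.const_mul _) (Eventually.of_forall fun z => ?_)
    rw [norm_mul, norm_mul, mul_comm]
    exact mul_le_mul_of_nonneg_right (kk_bound ha hδ z) (by positivity)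
  refine h1.trans (le_of_eq ?_)
  rw [integral_const_mul]
  congr 1
  exact integral_prod_mul (μ := mu) (ν := mu) (fun x => ‖F x‖) (fun x => ‖H x‖)

lemma T_sub {a : ℝ → ℂ} (ha : LipschitzWith (1 / 10) a) {δ : ℝ} (hδ : 0 < δ) {F H F' H' : ℝ → ℂ}
    (hF : Integrable F mu) (hH : Integrable H mu) (hF' : Integrable F' mu)
    (hH' : Integrable H' mu) :
    T a δ F H = T a δ (F - F') H + T a δ F' (H - H') + T a δ F' H' := by
  unfold T
  have e1 : Integrable (fun z : ℝ × ℝ => (F - F') z.1 * H z.2 * kk a δ z +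
      F' z.1 * (H - H') z.2 * kk a δ z) (mu.prod mu) :=
    (int_T ha hδ (hF.sub hF') hH).add (int_T ha hδ hF' (hH.sub hH'))
  rw [← integral_add (int_T ha hδ (hF.sub hF') hH) (int_T ha hδ hF' (hH.sub hH')),
    ← integral_add e1 (int_T ha hδ hF' hH')]
  congr 1
  funext z
  simp only [Pi.sub_apply]
  ring

lemma T_iter {a : ℝ → ℂ} (ha : LipschitzWith (1 / 10) a) {δ : ℝ} (hδ : 0 < δ) {F H : ℝ → ℂ}
    (hF : Integrable F mu) (hH : Integrable H mu) :
    T a δ F H = ∫ x in Ico (0 : ℝ) 1, ∫ y in Ico (0 : ℝ) 1, F x * H y * kk a δ (x, y) := by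
  unfold T
  rw [integral_prod _ (int_T ha hδ hF hH)]

/-! ### Cells -/

/-- The dyadic cell. -/
def cell (N k : ℕ) : Set ℝ := Ico ((k : ℝ) / 2 ^ N) (((k : ℝ) + 1) / 2 ^ N)

lemma cell_meas (N k : ℕ) : MeasurableSet (cell N k) := measurableSet_Ico

lemma mem_cell {N k : ℕ} {x : ℝ} : x ∈ cell N k ↔ (k : ℝ) ≤ 2 ^ N * x ∧ 2 ^ N * x < k + 1 := by
  unfold cell
  rw [mem_Ico, div_le_iff₀ (by positivity), lt_div_iff₀ (by positivity), mul_comm x]

lemma floor_cell {N k : ℕ} {x : ℝ} (hx : x ∈ cell N k) : ⌊(2 : ℝ) ^ N * x⌋₊ = k := by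
  rw [mem_cell] at hx
  have h0 : (0 : ℝ) ≤ 2 ^ N * x := le_trans (Nat.cast_nonneg k) hx.1
  exact (Nat.floor_eq_iff h0).2 hx

lemma union_cell (N : ℕ) : (⋃ k ∈ Finset.range (2 ^ N), cell N k) = Ico (0 : ℝ) 1 := by
  ext x
  simp only [mem_iUnion, Finset.mem_range, exists_prop]
  constructor
  · rintro ⟨k, hk, hx⟩
    rw [mem_cell] at hx
    have h2 : (0 : ℝ) < 2 ^ N := by positivity
    have hk' : (k : ℝ) + 1 ≤ 2 ^ N := by exact_mod_cast hk
    constructor
    · by_contra h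
      push Not at h
      nlinarith [mul_neg_of_pos_of_neg h2 h, (Nat.cast_nonneg k : (0 : ℝ) ≤ k)]
    · by_contra h
      push Not at h
      nlinarith
  · intro hx
    have h2 : (0 : ℝ) < 2 ^ N := by positivity
    have h0 : (0 : ℝ) ≤ 2 ^ N * x := mul_nonneg h2.le hx.1
    refine ⟨⌊(2 : ℝ) ^ N * x⌋₊, ?_, ?_⟩
    · rw [Nat.floor_lt h0]
      push_cast
      nlinarith [hx.2]
    · rw [mem_cell]
      exact ⟨Nat.floor_le h0, Nat.lt_floor_add_one _⟩

lemma disj_cell (N : ℕ) : Set.Pairwise (↑(Finset.range (2 ^ N)))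
    (Function.onFun Disjoint (cell N)) := by
  intro i _ j _ hij
  rw [Function.onFun, Set.disjoint_left]
  intro x hi hj
  exact hij ((floor_cell hi).symm.trans (floor_cell hj))

lemma cell_sub {N k : ℕ} (hk : k < 2 ^ N) : cell N k ⊆ Ico (0 : ℝ) 1 := by
  rw [← union_cell N]
  exact Set.subset_biUnion_of_mem (u := cell N) (Finset.mem_coe.2 (Finset.mem_range.2 hk))

lemma cell_sum {E : Type*} [NormedAddCommGroup E] [NormedSpace ℝ E] (N : ℕ) {h : ℝ → E}
    (hh : IntegrableOn h (Ico (0 : ℝ) 1)) :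
    ∫ x in Ico (0 : ℝ) 1, h x = ∑ k ∈ Finset.range (2 ^ N), ∫ x in cell N k, h x := by
  rw [← union_cell N]
  refine integral_biUnion_finset _ (fun k _ => cell_meas N k) (disj_cell N) (fun k hk => ?_)
  exact hh.mono_set (cell_sub (Finset.mem_range.1 hk))

/-- Step functions. -/
noncomputable def step (N : ℕ) (φ : ℕ → ℂ) (x : ℝ) : ℂ := φ ⌊(2 : ℝ) ^ N * x⌋₊

lemma step_meas (N : ℕ) (φ : ℕ → ℂ) : Measurable (step N φ) := by
  have h : Measurable (fun x : ℝ => (2 : ℝ) ^ N * x) := measurable_const_mul _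
  exact (measurable_from_nat (f := φ)).comp (Nat.measurable_floor.comp h)

lemma step_memLp (N : ℕ) (φ : ℕ → ℂ) : MemLp (step N φ) 2 mu := by
  refine MemLp.of_bound (step_meas N φ).aestronglyMeasurable
    (∑ k ∈ Finset.range (2 ^ N), ‖φ k‖) ?_
  refine (ae_restrict_iff' measurableSet_Ico).2 (Eventually.of_forall fun x hx => ?_)
  rw [← union_cell N] at hx
  simp only [mem_iUnion, exists_prop] at hx
  obtain ⟨k, hk, hx⟩ := hx
  unfold step
  rw [floor_cell hx]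
  exact Finset.single_le_sum (f := fun k => ‖φ k‖) (fun _ _ => norm_nonneg _) hk

lemma cell_vol (N k : ℕ) : (volume (cell N k)).toReal = ((2 : ℝ) ^ N)⁻¹ := by
  unfold cell
  rw [Real.volume_Ico, ENNReal.toReal_ofReal]
  · field_simp
    ring
  · rw [sub_nonneg]
    gcongr
    linarith

lemma step_sq (N : ℕ) (φ : ℕ → ℂ) :
    ∫ x in Ico (0 : ℝ) 1, ‖step N φ x‖ ^ 2 =
      ∑ k ∈ Finset.range (2 ^ N), ((2 : ℝ) ^ N)⁻¹ * ‖φ k‖ ^ 2 := by
  have hI : IntegrableOn (fun x => ‖step N φ x‖ ^ 2) (Ico (0 : ℝ) 1) := by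
    have := (step_memLp N φ).integrable_norm_pow (p := 2) (by norm_num)
    exact this
  rw [cell_sum N hI]
  refine Finset.sum_congr rfl fun k _ => ?_
  have : ∫ x in cell N k, ‖step N φ x‖ ^ 2 = ∫ x in cell N k, ‖φ k‖ ^ 2 :=
    setIntegral_congr_fun (cell_meas N k) (fun x hx => by simp only [step, floor_cell hx])
  rw [this, setIntegral_const, Measure.real, cell_vol, smul_eq_mul]


lemma kk_slice_int {a : ℝ → ℂ} (ha : LipschitzWith (1 / 10) a) {δ : ℝ} (hδ : 0 < δ) (N k l : ℕ)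
    (hk : k < 2 ^ N) (hl : l < 2 ^ N) :
    IntegrableOn (fun x => ∫ y in cell N l, kk a δ (x, y)) (cell N k) := by
  have h1 : Integrable (kk a δ) ((volume.restrict (cell N k)).prod (volume.restrict (cell N l))) := by
    haveI : IsFiniteMeasure (volume.restrict (cell N k)) :=
      ⟨by rw [Measure.restrict_apply_univ]; unfold cell; rw [Real.volume_Ico]; exact ENNReal.ofReal_lt_top⟩
    haveI : IsFiniteMeasure (volume.restrict (cell N l)) :=
      ⟨by rw [Measure.restrict_apply_univ]; unfold cell; rw [Real.volume_Ico]; exact ENNReal.ofReal_lt_top⟩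
    exact Integrable.of_bound (kk_meas ha hδ).aestronglyMeasurable (4 / δ)
      (Eventually.of_forall (kk_bound ha hδ))
  exact h1.integral_prod_left

lemma T_step (hR : TaskRect) {a : ℝ → ℂ} (ha : LipschitzWith (1 / 10) a) {δ : ℝ} (hδ : 0 < δ)
    (N : ℕ) (φ ψ : ℕ → ℂ) :
    T a δ (step N φ) (step N ψ) =
      -∑ k ∈ Finset.range (2 ^ N), ∑ l ∈ Finset.range (2 ^ N), φ k * ψ l * Rc (P a δ) N k l := by
  have hφ : Integrable (step N φ) mu := (step_memLp N φ).integrable (by norm_num)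
  have hψ : Integrable (step N ψ) mu := (step_memLp N ψ).integrable (by norm_num)
  rw [T_iter ha hδ hφ hψ]
  have hI := int_T ha hδ hφ hψ
  have hslice : IntegrableOn (fun x => ∫ y in Ico (0 : ℝ) 1,
      step N φ x * step N ψ y * kk a δ (x, y)) (Ico (0 : ℝ) 1) := hI.integral_prod_left
  rw [cell_sum N hslice, ← Finset.sum_neg_distrib]
  refine Finset.sum_congr rfl fun k hk => ?_
  have hk' := Finset.mem_range.1 hk
  have h1 : ∀ x ∈ cell N k, ∫ y in Ico (0 : ℝ) 1, step N φ x * step N ψ y * kk a δ (x, y) =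
      ∑ l ∈ Finset.range (2 ^ N), φ k * ψ l * ∫ y in cell N l, kk a δ (x, y) := by
    intro x hx
    have hIx : IntegrableOn (fun y => step N φ x * step N ψ y * kk a δ (x, y)) (Ico (0 : ℝ) 1) := by
      have hm : Measurable (fun y => kk a δ (x, y)) := (kk_meas ha hδ).comp measurable_prodMk_left
      exact (hψ.const_mul (step N φ x)).mul_bdd hm.aestronglyMeasurable
        (Eventually.of_forall fun y => kk_bound ha hδ (x, y))
    rw [cell_sum N hIx]
    refine Finset.sum_congr rfl fun l _ => ?_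
    rw [← integral_const_mul]
    refine setIntegral_congr_fun (cell_meas N l) (fun y hy => ?_)
    simp only [step, floor_cell hx, floor_cell hy]
  rw [setIntegral_congr_fun (cell_meas N k) h1, integral_finset_sum]
  · rw [← Finset.sum_neg_distrib]
    refine Finset.sum_congr rfl fun l _ => ?_
    rw [integral_const_mul]
    have hr := hR a ha δ hδ ((k : ℝ) / 2 ^ N) (((k : ℝ) + 1) / 2 ^ N) ((l : ℝ) / 2 ^ N)
      (((l : ℝ) + 1) / 2 ^ N) (by gcongr; linarith) (by gcongr; linarith)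
    have hr' : ∫ x in cell N k, ∫ y in cell N l, kk a δ (x, y) = -Rc (P a δ) N k l := hr
    rw [hr']
    ring
  · intro l hl
    exact (kk_slice_int ha hδ N k l hk' (Finset.mem_range.1 hl)).const_mul _

/-! ### Norms -/

/-- The `L²` norm. -/
noncomputable def nn (F : ℝ → ℂ) : ℝ := (eLpNorm F 2 mu).toReal

lemma nn_nonneg (F : ℝ → ℂ) : 0 ≤ nn F := ENNReal.toReal_nonneg

lemma nn_eq {F : ℝ → ℂ} (hF : MemLp F 2 mu) :
    nn F = √(∫ x in Ico (0 : ℝ) 1, ‖F x‖ ^ 2) := by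
  unfold nn
  rw [hF.eLpNorm_eq_integral_rpow_norm (by norm_num) (by norm_num)]
  rw [ENNReal.toReal_ofReal (by positivity)]
  rw [Real.sqrt_eq_rpow]
  norm_num

lemma nn_add {F H : ℝ → ℂ} (hF : MemLp F 2 mu) (hH : MemLp H 2 mu) : nn (F + H) ≤ nn F + nn H := by
  unfold nn
  rw [← ENNReal.toReal_add hF.eLpNorm_ne_top hH.eLpNorm_ne_top]
  exact ENNReal.toReal_mono (ENNReal.add_ne_top.2 ⟨hF.eLpNorm_ne_top, hH.eLpNorm_ne_top⟩)
    (eLpNorm_add_le hF.1 hH.1 (by norm_num))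

lemma int_le_nn {F : ℝ → ℂ} (hF : MemLp F 2 mu) : ∫ x, ‖F x‖ ∂mu ≤ nn F := by
  have h1 : ∫ x, ‖F x‖ ∂mu = (eLpNorm F 1 mu).toReal := by
    rw [eLpNorm_one_eq_lintegral_enorm, integral_norm_eq_lintegral_enorm hF.1]
  rw [h1]
  unfold nn
  exact ENNReal.toReal_mono hF.eLpNorm_ne_top
    (eLpNorm_le_eLpNorm_of_exponent_le (by norm_num) hF.1)

/-! ### Approximation -/

lemma approx {F : ℝ → ℂ} (hF : MemLp F 2 mu) {ε : ℝ} (hε : 0 < ε) :
    ∃ N₀ : ℕ, ∀ N, N₀ ≤ N → ∃ φ : ℕ → ℂ, nn (F - step N φ) ≤ ε := by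
  obtain ⟨g, hg, hgm⟩ := hF.exists_boundedContinuous_eLpNorm_sub_le (by norm_num)
    (ε := ENNReal.ofReal (ε / 2)) (by simp [hε])
  have huc : UniformContinuousOn g (Icc (0 : ℝ) 1) :=
    isCompact_Icc.uniformContinuousOn_of_continuous g.continuous.continuousOn
  rw [Metric.uniformContinuousOn_iff] at huc
  obtain ⟨η, hη, hu⟩ := huc (ε / 2) (by positivity)
  obtain ⟨N₀, hN₀⟩ := exists_pow_lt_of_lt_one hη (by norm_num : (1 / 2 : ℝ) < 1)
  refine ⟨N₀, fun N hN => ⟨fun k => g ((k : ℝ) / 2 ^ N), ?_⟩⟩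
  have hpow : (1 / 2 : ℝ) ^ N < η :=
    lt_of_le_of_lt (pow_le_pow_of_le_one (by norm_num) (by norm_num) hN) hN₀
  have hb : ∀ᵐ x ∂mu, ‖((g : ℝ → ℂ) - step N (fun k => g ((k : ℝ) / 2 ^ N))) x‖ ≤ ε / 2 := by
    refine (ae_restrict_iff' measurableSet_Ico).2 (Eventually.of_forall fun x hx => ?_)
    have hx0 := hx
    rw [← union_cell N] at hx
    simp only [mem_iUnion, exists_prop] at hx
    obtain ⟨k, hk, hxk⟩ := hx
    rw [Pi.sub_apply, step, floor_cell hxk]
    have hk0 : (0 : ℝ) ≤ (k : ℝ) / 2 ^ N := by positivity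
    have hlt : x - (k : ℝ) / 2 ^ N < (1 / 2) ^ N := by
      have := hxk.2
      rw [add_div] at this
      rw [one_div, inv_pow, ← one_div]
      linarith
    have hge : (k : ℝ) / 2 ^ N ≤ x := hxk.1
    have := hu x ⟨hx0.1, hx0.2.le⟩ ((k : ℝ) / 2 ^ N) ⟨hk0, hge.trans hx0.2.le⟩ (by
      rw [Real.dist_eq, abs_of_nonneg (by linarith)]
      linarith)
    rw [dist_eq_norm] at this
    exact this.le
  have hm2 : MemLp ((g : ℝ → ℂ) - step N (fun k => g ((k : ℝ) / 2 ^ N))) 2 mu :=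
    hgm.sub (step_memLp N _)
  have h2 : nn ((g : ℝ → ℂ) - step N (fun k => g ((k : ℝ) / 2 ^ N))) ≤ ε / 2 := by
    unfold nn
    have := eLpNorm_le_of_ae_bound (p := 2) hb
    rw [measure_univ, ENNReal.one_rpow, one_mul] at this
    calc _ ≤ (ENNReal.ofReal (ε / 2)).toReal := ENNReal.toReal_mono ENNReal.ofReal_ne_top this
      _ = ε / 2 := ENNReal.toReal_ofReal (by positivity)
  have h1 : nn (F - (g : ℝ → ℂ)) ≤ ε / 2 := by
    unfold nn
    calc _ ≤ (ENNReal.ofReal (ε / 2)).toReal := ENNReal.toReal_mono ENNReal.ofReal_ne_top hg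
      _ = ε / 2 := ENNReal.toReal_ofReal (by positivity)
  have h3 := nn_add (hF.sub hgm) hm2
  have h4 : F - (g : ℝ → ℂ) + ((g : ℝ → ℂ) - step N (fun k => g ((k : ℝ) / 2 ^ N))) =
      F - step N (fun k => g ((k : ℝ) / 2 ^ N)) := by
    funext x; simp
  rw [h4] at h3
  linarith

lemma main_bound (hR : TaskRect) {C : ℝ} (hC : 0 < C)
    {a : ℝ → ℂ} (ha : LipschitzWith (1 / 10) a) {δ : ℝ} (hδ : 0 < δ)
    (hD : ∀ (N : ℕ) (f g : ℕ → ℂ),
      ‖∑ k ∈ Finset.range (2 ^ N), ∑ l ∈ Finset.range (2 ^ N), f k * g l * Rc (P a δ) N k l‖ ≤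
        C * √(∑ k ∈ Finset.range (2 ^ N), ((2 : ℝ) ^ N)⁻¹ * ‖f k‖ ^ 2) *
          √(∑ l ∈ Finset.range (2 ^ N), ((2 : ℝ) ^ N)⁻¹ * ‖g l‖ ^ 2))
    {F H : ℝ → ℂ} (hF : MemLp F 2 mu) (hH : MemLp H 2 mu) :
    ‖T a δ F H‖ ≤ C * nn F * nn H := by
  have key : ∀ ε : ℝ, 0 < ε → ‖T a δ F H‖ ≤
      4 / δ * (ε * nn H) + 4 / δ * ((nn F + ε) * ε) + C * (nn F + ε) * (nn H + ε) := by
    intro ε hε
    obtain ⟨N₁, h₁⟩ := approx hF hε
    obtain ⟨N₂, h₂⟩ := approx hH hε
    obtain ⟨φ, hφ⟩ := h₁ (max N₁ N₂) (le_max_left _ _)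
    obtain ⟨ψ, hψ⟩ := h₂ (max N₁ N₂) (le_max_right _ _)
    set N := max N₁ N₂
    have mφ := step_memLp N φ
    have mψ := step_memLp N ψ
    have iF := hF.integrable (by norm_num)
    have iH := hH.integrable (by norm_num)
    have iφ := mφ.integrable (by norm_num)
    have iψ := mψ.integrable (by norm_num)
    have nφ : nn (step N φ) ≤ nn F + ε := by
      have e : step N φ = F + (-(F - step N φ)) := by funext x; simp
      have hneg : nn (-(F - step N φ)) = nn (F - step N φ) := by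
        unfold nn; rw [eLpNorm_neg]
      calc nn (step N φ) = nn (F + (-(F - step N φ))) := by rw [← e]
        _ ≤ nn F + nn (-(F - step N φ)) := nn_add hF (hF.sub mφ).neg
        _ ≤ nn F + ε := by rw [hneg]; linarith
    have nψ : nn (step N ψ) ≤ nn H + ε := by
      have e : step N ψ = H + (-(H - step N ψ)) := by funext x; simp
      have hneg : nn (-(H - step N ψ)) = nn (H - step N ψ) := by
        unfold nn; rw [eLpNorm_neg]
      calc nn (step N ψ) = nn (H + (-(H - step N ψ))) := by rw [← e]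
        _ ≤ nn H + nn (-(H - step N ψ)) := nn_add hH (hH.sub mψ).neg
        _ ≤ nn H + ε := by rw [hneg]; linarith
    have b1 : ‖T a δ (F - step N φ) H‖ ≤ 4 / δ * (ε * nn H) := by
      refine (T_bound ha hδ (iF.sub iφ) iH).trans ?_
      have := (int_le_nn (hF.sub mφ)).trans hφ
      have h2 := int_le_nn hH
      have h3 : 0 ≤ ∫ x, ‖H x‖ ∂mu := integral_nonneg fun _ => norm_nonneg _
      gcongr
    have b2 : ‖T a δ (step N φ) (H - step N ψ)‖ ≤ 4 / δ * ((nn F + ε) * ε) := by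
      refine (T_bound ha hδ iφ (iH.sub iψ)).trans ?_
      have := (int_le_nn (hH.sub mψ)).trans hψ
      have h2 := (int_le_nn mφ).trans nφ
      have h3 : 0 ≤ ∫ x, ‖(H - step N ψ) x‖ ∂mu := integral_nonneg fun _ => norm_nonneg _
      have h4 : 0 ≤ nn F + ε := by have := nn_nonneg F; linarith
      gcongr
    have b3 : ‖T a δ (step N φ) (step N ψ)‖ ≤ C * (nn F + ε) * (nn H + ε) := by
      rw [T_step hR ha hδ, norm_neg]
      refine (hD N φ ψ).trans ?_
      rw [← step_sq, ← step_sq, ← nn_eq mφ, ← nn_eq mψ]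
      have h1 := nn_nonneg (step N φ)
      have h2 := nn_nonneg (step N ψ)
      have h4 : 0 ≤ nn F + ε := by have := nn_nonneg F; linarith
      gcongr
    rw [T_sub ha hδ iF iH iφ iψ]
    refine (norm_add_le _ _).trans ?_
    refine add_le_add ((norm_add_le _ _).trans (add_le_add b1 b2)) b3
  have hlim : Tendsto (fun ε : ℝ => 4 / δ * (ε * nn H) + 4 / δ * ((nn F + ε) * ε) +
      C * (nn F + ε) * (nn H + ε)) (𝓝[>] 0) (𝓝 (4 / δ * (0 * nn H) + 4 / δ * ((nn F + 0) * 0) +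
      C * (nn F + 0) * (nn H + 0))) := by
    refine Tendsto.mono_left ?_ nhdsWithin_le_nhds
    have hc : Continuous (fun ε : ℝ => 4 / δ * (ε * nn H) + 4 / δ * ((nn F + ε) * ε) +
      C * (nn F + ε) * (nn H + ε)) := by fun_prop
    exact hc.tendsto 0
  have hfin := ge_of_tendsto hlim (by
    filter_upwards [self_mem_nhdsWithin] with ε hε using key ε hε)
  simpa using hfin

/-- `TaskDense`. -/
theorem taskDense : TaskDense := by
  intro hDis hR
  obtain ⟨C, hC, hD⟩ := hDis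
  refine ⟨C * (10 / 9) * (10 / 9), by positivity, ?_⟩
  intro a ha δ hδ hδ1 f g hf hg
  have hbm : Measurable (fun x => 1 + deriv a x) := measurable_const.add (measurable_deriv a)
  have hne : ∀ x, 1 + deriv a x ≠ 0 := by
    intro x h
    have := b_ge ha x
    rw [h, norm_zero] at this
    norm_num at this
  have hdiv : ∀ {f : ℝ → ℂ}, MemLp f 2 mu → MemLp (fun x => f x / (1 + deriv a x)) 2 mu ∧
      nn (fun x => f x / (1 + deriv a x)) ≤ 10 / 9 * nn f := by
    intro f hf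
    have hle : ∀ᵐ x ∂mu, ‖f x / (1 + deriv a x)‖ ≤ 10 / 9 * ‖f x‖ := by
      refine Eventually.of_forall fun x => ?_
      rw [norm_div, div_le_iff₀ (by have := b_ge ha x; linarith)]
      have h1 := b_ge ha x
      have h2 := norm_nonneg (f x)
      nlinarith
    have hms : AEStronglyMeasurable (fun x => f x / (1 + deriv a x)) mu :=
      (hf.1.aemeasurable.div hbm.aemeasurable).aestronglyMeasurable
    have hmem : MemLp (fun x => f x / (1 + deriv a x)) 2 mu := hf.of_le_mul hms hle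
    refine ⟨hmem, ?_⟩
    unfold nn
    have h3 := eLpNorm_le_mul_eLpNorm_of_ae_le_mul hle 2
    calc _ ≤ (ENNReal.ofReal (10 / 9) * eLpNorm f 2 mu).toReal :=
          ENNReal.toReal_mono (ENNReal.mul_ne_top ENNReal.ofReal_ne_top hf.eLpNorm_ne_top) h3
      _ = 10 / 9 * (eLpNorm f 2 mu).toReal := by
          rw [ENNReal.toReal_mul, ENNReal.toReal_ofReal (by norm_num)]
  obtain ⟨mF, nF⟩ := hdiv hf
  obtain ⟨mH, nH⟩ := hdiv hg
  have hb := main_bound hR hC ha hδ (hD a ha δ hδ hδ1) mF mH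
  have heq : T a δ (fun x => f x / (1 + deriv a x)) (fun x => g x / (1 + deriv a x)) =
      ∫ x in Ico (0 : ℝ) 1, ∫ y in Ico (0 : ℝ) 1, f x * g y * K a δ x y := by
    rw [T_iter ha hδ (mF.integrable (by norm_num)) (mH.integrable (by norm_num))]
    congr 1
    funext x
    congr 1
    funext y
    unfold kk
    have h1 := hne x
    have h2 := hne y
    simp only
    field_simp
  rw [heq] at hb
  refine hb.trans ?_
  rw [← nn_eq hf, ← nn_eq hg]
  have h1 := nn_nonneg (fun x => f x / (1 + deriv a x))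
  have h2 := nn_nonneg (fun x => g x / (1 + deriv a x))
  have h3 := nn_nonneg f
  have h4 := nn_nonneg g
  calc C * nn (fun x => f x / (1 + deriv a x)) * nn (fun x => g x / (1 + deriv a x))
      ≤ C * (10 / 9 * nn f) * (10 / 9 * nn g) := by gcongr
    _ = C * (10 / 9) * (10 / 9) * nn f * nn g := by ring

end Pool.Agent.H250R3.CauDense
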