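import Pool.Agent.H250R3.Scale

set_option autoImplicit false

open Set Filter Cardinal

namespace Pool.Agent.H250R3

/-- characteristic function of a set of naturals -/
noncomputable def chr (X : Set ℕ) : ℕ → Bool := by
  classical exact fun n => decide (n ∈ X)

/-- the ternary number with digit one exactly at the places of `X` -/
noncomputable def tern (X : Set ℕ) : ℝ := cantorFunction (1 / 3) (chr X)

lemma tern_injective : Function.Injective tern := by
  intro X Y h
  have := cantorFunction_injective (c := (1 / 3 : ℝ)) (by norm_num) (by norm_num) h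
  ext n
  have h2 := congrFun this n
  simpa [chr] using h2

lemma tern_eq (X : Set ℕ) : tern X = ∑' n, cantorFunctionAux (1 / 3) (chr X) n := rfl

lemma tern_close (X : Set ℕ) (F : Set ℕ) (m : ℕ) (hF : F ⊆ X) (hm : ∀ n ∈ X, n ∉ F → m ≤ n) :
    |tern X - tern F| ≤ 2 * (1 / 3) ^ m := by
  have s1 := summable_cantor_function (c := (1 / 3 : ℝ)) (chr X) (by norm_num) (by norm_num)
  have s2 := summable_cantor_function (c := (1 / 3 : ℝ)) (chr F) (by norm_num) (by norm_num)
  rw [tern_eq, tern_eq, ← s1.tsum_sub s2]
  have key : ∀ n, |cantorFunctionAux (1 / 3 : ℝ) (chr X) n - cantorFunctionAux (1 / 3) (chr F) n|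
      ≤ if m ≤ n then (1 / 3 : ℝ) ^ n else 0 := by
    intro n
    by_cases hnF : n ∈ F
    · have hnX := hF hnF
      rw [cantorFunctionAux_true (by simp [chr, hnX]), cantorFunctionAux_true (by simp [chr, hnF])]
      simp only [sub_self, abs_zero]
      split_ifs <;> positivity
    · by_cases hnX : n ∈ X
      · rw [cantorFunctionAux_true (by simp [chr, hnX]),
          cantorFunctionAux_false (by simp [chr, hnF]), if_pos (hm n hnX hnF)]
        rw [sub_zero, abs_of_nonneg (by positivity)]
      · rw [cantorFunctionAux_false (by simp [chr, hnX]),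
          cantorFunctionAux_false (by simp [chr, hnF])]
        simp only [sub_self, abs_zero]
        split_ifs <;> positivity
  have hs : HasSum (fun n : ℕ => if m ≤ n then (1 / 3 : ℝ) ^ n else 0) ((1 / 3) ^ m * (3 / 2)) := by
    have h0 : HasSum (fun n : ℕ => (1 / 3 : ℝ) ^ n) ((1 - 1 / 3)⁻¹) :=
      hasSum_geometric_of_lt_one (by norm_num) (by norm_num)
    have h1 : HasSum (fun n : ℕ => (1 / 3 : ℝ) ^ m * (1 / 3 : ℝ) ^ n)
        ((1 / 3) ^ m * (3 / 2)) := by
      have := h0.mul_left ((1 / 3 : ℝ) ^ m)
      norm_num at this ⊢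
      exact this
    rw [← hasSum_nat_add_iff' m]
    have h2 : ∑ i ∈ Finset.range m, (if m ≤ i then (1 / 3 : ℝ) ^ i else 0) = 0 := by
      apply Finset.sum_eq_zero
      intro i hi
      rw [if_neg (by simpa using hi)]
    rw [h2, sub_zero]
    have h3 : (fun n : ℕ => if m ≤ n + m then (1 / 3 : ℝ) ^ (n + m) else 0) =
        fun n : ℕ => (1 / 3 : ℝ) ^ m * (1 / 3 : ℝ) ^ n := by
      funext n
      rw [if_pos (by omega), pow_add, mul_comm]
    rw [h3]
    exact h1
  have hb := tsum_of_norm_bounded (f := fun n => cantorFunctionAux (1 / 3 : ℝ) (chr X) n -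
    cantorFunctionAux (1 / 3) (chr F) n) hs (fun n => by rw [Real.norm_eq_abs]; exact key n)
  rw [Real.norm_eq_abs] at hb
  calc |∑' n, (cantorFunctionAux (1 / 3 : ℝ) (chr X) n - cantorFunctionAux (1 / 3) (chr F) n)|
      ≤ (1 / 3) ^ m * (3 / 2) := by
        exact hb
    _ ≤ 2 * (1 / 3) ^ m := by
        have : (0 : ℝ) ≤ (1 / 3) ^ m := by positivity
        linarith


/-- The concentrated family: real numbers `r i` and countably many reals `tern F`, `F` finite. -/
theorem concentrated : ∃ (κ : Cardinal.{0}) (ι : Type) (r : ι → ℝ), ℵ₀ < κ ∧ #ι = κ ∧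
    Function.Injective r ∧ (∀ i (F : Finset ℕ), r i ≠ tern F) ∧
    ∀ ε : Finset ℕ → ℝ, (∀ F, 0 < ε F) →
      #{i | {F : Finset ℕ | |r i - tern F| < ε F}.Finite} < κ := by
  classical
  obtain ⟨κ, ι, a, hκ, hι, hmono, hinj, hdom⟩ := scale
  refine ⟨κ, ι, fun i => tern (range (a i)), hκ, hι, ?_, ?_, ?_⟩
  · intro i j h
    have := tern_injective h
    exact hinj ((hmono i).range_inj (hmono j) |>.1 this)
  · intro i F h
    have := tern_injective h
    have hinf := infinite_range_of_injective (hmono i).injective
    rw [this] at hinf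
    exact hinf F.finite_toSet
  · intro ε hε
    -- the function `h`
    have hch : ∀ m : ℕ, ∃ k : ℕ, ∀ F ∈ (Finset.range (m + 1)).powerset,
        2 * (1 / 3 : ℝ) ^ k < ε F := by
      intro m
      have : ∀ F : Finset ℕ, ∃ k : ℕ, ∀ l, k ≤ l → 2 * (1 / 3 : ℝ) ^ l < ε F := by
        intro F
        obtain ⟨k, hk⟩ := exists_pow_lt_of_lt_one (show (0 : ℝ) < ε F / 2 by linarith [hε F])
          (show (1 / 3 : ℝ) < 1 by norm_num)
        refine ⟨k, fun l hl => ?_⟩
        have : (1 / 3 : ℝ) ^ l ≤ (1 / 3) ^ k :=
          pow_le_pow_of_le_one (by norm_num) (by norm_num) hl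
        linarith
      choose k hk using this
      refine ⟨∑ F ∈ (Finset.range (m + 1)).powerset, k F, fun F hF => hk F _ ?_⟩
      exact Finset.single_le_sum (f := k) (fun _ _ => Nat.zero_le _) hF
    choose k hk using hch
    let h : ℕ → ℕ := fun m => m + ∑ l ∈ Finset.range (m + 1), k l
    have hmh : Monotone h := by
      refine monotone_nat_of_le_succ fun n => ?_
      simp only [h]
      rw [Finset.sum_range_succ _ (n + 1)]
      omega
    have hge : ∀ m, m ≤ h m := fun m => Nat.le_add_right _ _
    have hkh : ∀ m, k m ≤ h m := fun m => by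
      have : k m ≤ ∑ l ∈ Finset.range (m + 1), k l :=
        Finset.single_le_sum (fun _ _ => Nat.zero_le _) (Finset.mem_range.2 (by omega))
      simp only [h]
      omega
    have hit : ∀ p q c d : ℕ, p ≤ q → c ≤ d → h^[p] c ≤ h^[q] d := by
      intro p q c d hpq hcd
      obtain ⟨t, rfl⟩ := Nat.exists_eq_add_of_le hpq
      have h1 : h^[p] c ≤ h^[p] d := hmh.iterate p hcd
      refine h1.trans ?_
      rw [Nat.add_comm, Function.iterate_add_apply]
      have : ∀ s x, x ≤ h^[s] x := by
        intro s
        induction s with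
        | zero => intro x; exact le_rfl
        | succ s ih =>
          intro x
          rw [Function.iterate_succ_apply]
          exact (hge x).trans (ih _)
      exact this t _
    refine lt_of_le_of_lt (mk_le_mk_of_subset ?_) (hdom (fun n => h^[n] n))
    intro i hi
    simp only [mem_setOf_eq] at hi ⊢
    by_contra hnd
    -- infinitely many big jumps
    have hjump : ∀ n0, ∃ n ≥ n0, h (a i n) ≤ a i (n + 1) := by
      intro n0
      by_contra hno
      push Not at hno
      apply hnd
      have hb : ∀ t, a i (n0 + t) ≤ h^[t] (a i n0) := by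
        intro t
        induction t with
        | zero => exact le_rfl
        | succ t ih =>
          have := (hno (n0 + t) (by omega)).le
          rw [Function.iterate_succ_apply']
          exact this.trans (hmh ih)
      filter_upwards [eventually_ge_atTop (n0 + a i n0)] with n hn
      obtain ⟨t, rfl⟩ := Nat.exists_eq_add_of_le (show n0 ≤ n by omega)
      exact (hb t).trans (hit _ _ _ _ (by omega) (by omega))
    let Fn : ℕ → Finset ℕ := fun n => (Finset.range (n + 1)).image (a i)
    have hFinj : Function.Injective Fn := by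
      intro n m hnm
      have h1 : (Fn n).card = n + 1 := by
        simp only [Fn]
        rw [Finset.card_image_of_injective _ (hmono i).injective, Finset.card_range]
      have h2 : (Fn m).card = m + 1 := by
        simp only [Fn]
        rw [Finset.card_image_of_injective _ (hmono i).injective, Finset.card_range]
      rw [hnm, h2] at h1
      omega
    have hgood : ∀ n, h (a i n) ≤ a i (n + 1) →
        Fn n ∈ {F : Finset ℕ | |tern (range (a i)) - tern F| < ε F} := by
      intro n hn
      have hc : |tern (range (a i)) - tern (Fn n : Finset ℕ)| ≤ 2 * (1 / 3) ^ (a i (n + 1)) := by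
        apply tern_close
        · intro x hx
          simp only [Fn, Finset.coe_image, mem_image] at hx
          obtain ⟨y, _, rfl⟩ := hx
          exact mem_range_self _
        · rintro _ ⟨y, rfl⟩ hy
          apply (hmono i).monotone
          by_contra hlt
          apply hy
          simp only [Fn, Finset.coe_image, mem_image]
          exact ⟨y, by simpa using (by omega : y < n + 1), rfl⟩
      have h1 := hk (a i n) (Fn n) (by
        rw [Finset.mem_powerset]
        intro x hx
        simp only [Fn, Finset.mem_image, Finset.mem_range] at hx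
        obtain ⟨y, hy, rfl⟩ := hx
        rw [Finset.mem_range]
        have := (hmono i).monotone (show y ≤ n by omega)
        omega)
      have h2 : (1 / 3 : ℝ) ^ (a i (n + 1)) ≤ (1 / 3) ^ (k (a i n)) :=
        pow_le_pow_of_le_one (by norm_num) (by norm_num) ((hkh _).trans hn)
      simp only [mem_setOf_eq]
      linarith
    have hinf : {n | h (a i n) ≤ a i (n + 1)}.Infinite := by
      rw [← Nat.frequently_atTop_iff_infinite, frequently_atTop]
      intro n0
      obtain ⟨n, hn, h1⟩ := hjump n0
      exact ⟨n, hn, h1⟩
    have himg := hinf.image (hFinj.injOn)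
    refine himg (hi.subset ?_)
    rintro _ ⟨n, hn, rfl⟩
    exact hgood n hn

end Pool.Agent.H250R3
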