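import Pool.Agent.H250R3.Main

set_option autoImplicit false

open Set Filter Topology
open scoped Cardinal

namespace Pool.Agent.H250R3

variable {ι J : Type}

/-- the gluing data -/
noncomputable def gl (r : ι → ℝ) (D : J → ℝ) : ι ⊕ J → ℝ → ℝ
  | .inl i, _ => r i
  | .inr j, y => D j - om y

lemma continuous_gl (r : ι → ℝ) (D : J → ℝ) (c : ι ⊕ J) : Continuous (gl r D c) := by
  rcases c with i | j
  · exact continuous_const
  · exact continuous_const.sub continuous_om

lemma gl_ne (r : ι → ℝ) (D : J → ℝ) (hr : Function.Injective r) (hD : Function.Injective D)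
    (hrD : ∀ i j, r i ≠ D j) (c c' : ι ⊕ J) (h : c ≠ c') : gl r D c 0 ≠ gl r D c' 0 := by
  have h0 : om 0 = 0 := by simp [om]
  rcases c with i | j <;> rcases c' with i' | j' <;> simp only [gl, h0, sub_zero]
  · intro h1; exact h (by rw [hr h1])
  · exact hrD i j'
  · exact (hrD i' j).symm
  · intro h1; exact h (by rw [hD h1])

variable (r : ι → ℝ) (D : J → ℝ)

lemma shift (i0 i : ι) (x y : ℝ) (hy : y ≠ 0) :
    chart (gl r D) (.inl i0) (x, y) = chart (gl r D) (.inl i) (x + (r i0 - r i) / y, y) := by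
  by_cases h : i0 = i
  · subst h; simp
  · rw [chart_eq_iff _ (by intro h1; injection h1 with h2; exact h h2)]
    refine ⟨rfl, hy, ?_⟩
    simp only [gl]
    field_simp
    ring

/-- small neighbourhood of a base point -/
def nb (i0 : ι) (X Y δ : ℝ) : Set (Sp (gl r D)) :=
  chart (gl r D) (.inl i0) ''
    {q | q.2 ≠ 0 ∧ |q.1 - X| < δ ∧ |1 / q.2 - 1 / Y| < δ ∧ |q.2 - Y| < δ}

lemma isOpen_nb (i0 : ι) (X Y δ : ℝ) : IsOpen (nb r D i0 X Y δ) := by
  apply isOpenMap_chart _ (continuous_gl r D)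
  have h1 : IsOpen {q : ℝ × ℝ | q.2 ≠ 0} := isOpen_ne.preimage continuous_snd
  have h2 : IsOpen {q : ℝ × ℝ | |q.1 - X| < δ} := isOpen_lt (by fun_prop) continuous_const
  have h3 : IsOpen {q : ℝ × ℝ | |q.2 - Y| < δ} := isOpen_lt (by fun_prop) continuous_const
  have h4 : IsOpen ({q : ℝ × ℝ | q.2 ≠ 0} ∩ (fun q : ℝ × ℝ => |1 / q.2 - 1 / Y|) ⁻¹' (Iio δ)) := by
    apply ContinuousOn.isOpen_inter_preimage _ h1 isOpen_Iio
    apply ContinuousOn.abs
    apply ContinuousOn.sub _ continuousOn_const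
    exact continuousOn_const.div continuousOn_snd (fun q hq => hq)
  have : {q : ℝ × ℝ | q.2 ≠ 0 ∧ |q.1 - X| < δ ∧ |1 / q.2 - 1 / Y| < δ ∧ |q.2 - Y| < δ} =
      ({q : ℝ × ℝ | q.2 ≠ 0} ∩ (fun q : ℝ × ℝ => |1 / q.2 - 1 / Y|) ⁻¹' (Iio δ)) ∩
        ({q : ℝ × ℝ | |q.1 - X| < δ} ∩ {q : ℝ × ℝ | |q.2 - Y| < δ}) := by
    ext q
    simp only [mem_ofPred_eq, mem_inter_iff, mem_preimage, mem_Iio]
    tauto
  rw [this]
  exact h4.inter (h2.inter h3)

lemma locfin (i0 : ι) (X Y δ : J → ℝ) (hY : ∀ j, Y j ≠ 0)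
    (hδ : ∀ η > 0, {j | η ≤ δ j}.Finite)
    (m : Sp (gl r D)) (hm : m ∈ UU (gl r D)) (W : Set (Sp (gl r D))) (hW : IsOpen W) (hmW : m ∈ W)
    (hfin : {j | chart (gl r D) (.inl i0) (X j, Y j) ∈ W}.Finite) :
    ∃ O : Set (Sp (gl r D)), IsOpen O ∧ m ∈ O ∧
      {j | (nb r D i0 (X j) (Y j) (δ j) ∩ O).Nonempty}.Finite := by
  obtain ⟨i, ⟨s, t⟩, rfl⟩ := mem_iUnion.1 hm
  have hpre : IsOpen (chart (gl r D) (.inl i) ⁻¹' W) := hW.preimage (continuous_chart _ _)
  obtain ⟨ε, hε, hball⟩ := Metric.isOpen_iff.1 hpre (s, t) hmW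
  refine ⟨chart (gl r D) (.inl i) '' (Metric.ball (s, t) (ε / 2)),
    isOpenMap_chart _ (continuous_gl r D) _ _ Metric.isOpen_ball,
    mem_image_of_mem _ (Metric.mem_ball_self (by linarith)), ?_⟩
  have hK : 0 < 2 * (1 + |r i0 - r i|) := by positivity
  refine ((hδ (ε / (2 * (1 + |r i0 - r i|))) (by positivity)).union hfin).subset ?_
  intro j hj
  by_cases hd : ε / (2 * (1 + |r i0 - r i|)) ≤ δ j
  · left; exact hd
  right
  rw [not_le, lt_div_iff₀ hK] at hd
  obtain ⟨z, ⟨⟨x, y⟩, ⟨hy, hx1, hy1, hy2⟩, hz1⟩, ⟨⟨x', y'⟩, hq, hz2⟩⟩ := hj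
  simp only at hy hx1 hy1 hy2
  change chart (gl r D) (.inl i0) (X j, Y j) ∈ W
  rw [shift r D i0 i (X j) (Y j) (hY j)]
  apply hball
  rw [← hz2, shift r D i0 i x y hy] at hz1
  have h1 := chart_injective _ _ hz1
  simp only [Prod.mk.injEq] at h1
  obtain ⟨h1, h2⟩ := h1
  rw [Metric.mem_ball, Prod.dist_eq, max_lt_iff, Real.dist_eq, Real.dist_eq] at hq ⊢
  simp only at hq ⊢
  rw [← h1, ← h2] at hq
  have hδp : 0 < δ j := lt_of_le_of_lt (abs_nonneg _) hx1
  have e1 : X j + (r i0 - r i) / Y j - s =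
      (x + (r i0 - r i) / y - s) - ((x - X j) + (r i0 - r i) * (1 / y - 1 / Y j)) := by ring
  have e2 : Y j - t = (y - t) - (y - Y j) := by ring
  constructor
  · rw [e1]
    calc |(x + (r i0 - r i) / y - s) - ((x - X j) + (r i0 - r i) * (1 / y - 1 / Y j))|
        ≤ |x + (r i0 - r i) / y - s| + |(x - X j) + (r i0 - r i) * (1 / y - 1 / Y j)| := abs_sub _ _
      _ ≤ |x + (r i0 - r i) / y - s| + (|x - X j| + |(r i0 - r i) * (1 / y - 1 / Y j)|) := by
          gcongr; exact abs_add_le _ _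
      _ ≤ ε / 2 + (δ j + |r i0 - r i| * δ j) := by
          rw [abs_mul]
          gcongr
          exact hq.1.le
      _ < ε := by nlinarith
  · rw [e2]
    calc |(y - t) - (y - Y j)| ≤ |y - t| + |y - Y j| := abs_sub _ _
      _ < ε := by nlinarith [abs_nonneg (r i0 - r i), hq.2]

theorem main_counter {κ : Cardinal.{0}} (hκ : ℵ₀ < κ) (hι : #ι = κ) (enc : J → ℕ)
    (henc : Function.Injective enc)
    (hconc : ∀ ε : J → ℝ, (∀ j, 0 < ε j) → #{i | {j : J | |r i - D j| < ε j}.Finite} < κ)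
    (V : Set (Sp (gl r D))) (hV : IsOpen V) (hVd : Dense V) : ¬ Nonempty (UU (gl r D) ≃ₜ V) := by
  rintro ⟨e⟩
  have hG := continuous_gl r D
  have hunc : ¬ Countable ι := by
    intro h
    rw [← Cardinal.mk_le_aleph0_iff, hι] at h
    exact absurd hκ (not_lt.2 h)
  have hne : Nonempty ι := by
    by_contra h
    rw [not_nonempty_iff] at h
    exact hunc inferInstance
  obtain ⟨i0⟩ := hne
  -- gate points
  have hgate := gatepoint (gl r D) hG hV e hunc hVd
  choose u hu using hgate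
  choose xg hxg using fun j => (hu j).1
  choose w y hy hwy using fun j => (hu j).2
  let X : J → ℝ := fun j => w j - gl r D (.inl i0) (y j) / y j
  have hXu : ∀ j, chart (gl r D) (.inl i0) (X j, y j) = (u j : Sp (gl r D)) := by
    intro j
    rw [hwy j]
    exact base_mem _ i0 (w j) (y j) (hy j)
  let δ : J → ℝ := fun j => 1 / ((enc j : ℝ) + 1)
  have hδpos : ∀ j, 0 < δ j := fun j => by positivity
  have hencfin : ∀ n : ℕ, {j | enc j ≤ n}.Finite := by
    intro n
    have : {j | enc j ≤ n} = enc ⁻¹' (Iic n) := rfl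
    rw [this]
    exact (finite_Iic n).preimage henc.injOn
  have hδ : ∀ η > 0, {j | η ≤ δ j}.Finite := by
    intro η hη
    obtain ⟨n, hn⟩ := exists_nat_gt (1 / η)
    refine (hencfin n).subset ?_
    intro j hj
    have hj' : η ≤ 1 / ((enc j : ℝ) + 1) := hj
    rw [le_div_iff₀ (by positivity)] at hj'
    rw [div_lt_iff₀ hη] at hn
    have : (enc j : ℝ) ≤ n := by
      by_contra hcon
      push Not at hcon
      nlinarith
    exact_mod_cast this
  let N : J → Set (Sp (gl r D)) := fun j => nb r D i0 (X j) (y j) (δ j)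
  have hLF : ∀ m : UU (gl r D), ∃ O : Set (Sp (gl r D)), IsOpen O ∧ (m : Sp (gl r D)) ∈ O ∧
      {j | (N j ∩ O).Nonempty}.Finite := by
    intro m
    haveI : Nonempty ι := ⟨i0⟩
    obtain ⟨c, p, hcp⟩ := exists_chart (gl r D) (e m : Sp (gl r D))
    let W' : Set (UU (gl r D)) := {v | (e v : Sp (gl r D)) ∈ range (chart (gl r D) c)}
    have hW' : IsOpen W' :=
      (isOpenEmbedding_chart _ hG c).isOpen_range.preimage
        (continuous_subtype_val.comp e.continuous)
    obtain ⟨W, hW, hWW⟩ := isOpen_induced_iff.1 hW'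
    apply locfin r D i0 X y δ hy hδ m m.2 W hW
    · have : m ∈ W' := ⟨p, hcp⟩
      rw [← hWW] at this
      exact this
    · apply Set.Subsingleton.finite
      have key : ∀ j, chart (gl r D) (.inl i0) (X j, y j) ∈ W → c = .inr j := by
        intro j hj
        rw [hXu j] at hj
        have h2 : u j ∈ W' := by rw [← hWW]; exact hj
        have h3 : (e (u j) : Sp (gl r D)) ∈ range (chart (gl r D) c) := h2
        rw [hxg j] at h3
        exact gate_mem_range _ h3
      intro j hj j' hj'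
      have h1 := key j hj
      have h2 := key j' hj'
      rw [h1] at h2
      injection h2
  -- sizes of the neighbourhoods of the gate points
  have huN : ∀ j, (u j : Sp (gl r D)) ∈ N j := by
    intro j
    refine ⟨(X j, y j), ⟨hy j, ?_, ?_, ?_⟩, hXu j⟩ <;> simp [hδpos j]
  have hη : ∀ j, ∃ η > 0, ∀ t, 0 < t → t < η →
      chart (gl r D) (.inr j) (xg j, t) ∈ push (gl r D) e (N j) := by
    intro j
    have hop : IsOpen (chart (gl r D) (.inr j) ⁻¹' (push (gl r D) e (N j))) :=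
      (isOpen_push _ hV e (isOpen_nb r D _ _ _ _)).preimage (continuous_chart _ _)
    have hmem : (xg j, (0 : ℝ)) ∈ chart (gl r D) (.inr j) ⁻¹' (push (gl r D) e (N j)) := by
      change chart (gl r D) (.inr j) (xg j, (0 : ℝ)) ∈ push (gl r D) e (N j)
      rw [gate_eq _ j (xg j) 0 le_rfl, ← hxg j]
      exact mem_push _ e (huN j)
    obtain ⟨η, hη, hb⟩ := Metric.isOpen_iff.1 hop _ hmem
    refine ⟨η, hη, fun t ht1 ht2 => hb ?_⟩
    rw [Metric.mem_ball, Prod.dist_eq, max_lt_iff]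
    simp only [dist_self, Real.dist_eq, sub_zero, abs_of_pos ht1]
    exact ⟨hη, ht2⟩
  choose η hηpos hηN using hη
  have hosc : ∀ j, ∃ ε > 0, ∀ β : ℝ, |β| < ε → ∀ k : ℝ, |k| ≤ |xg j| + enc j →
      ∃ t, 0 < t ∧ t < min (η j) (δ j) ∧ k * t = β + om t := fun j =>
    osc (|xg j| + enc j) (min (η j) (δ j)) (by positivity) (lt_min (hηpos j) (hδpos j))
  choose ε hεpos hε using hosc
  have hbad := hconc ε hεpos
  set Bad : Set ι := {i | {j : J | |r i - D j| < ε j}.Finite} with hBad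
  -- a good line
  have hgood : ∃ v : UU (gl r D), ∃ b : ι, b ∉ Bad ∧ ∃ s, (e v : Sp (gl r D)) = Sp.line b s := by
    by_contra hno
    push Not at hno
    let C := Option (J ⊕ Bad)
    let ch : C → ι ⊕ J := fun o => match o with
      | none => .inl i0
      | some (.inl j) => .inr j
      | some (.inr b) => .inl b.1
    have hcov : (⋃ o : C, {i : ι | ∃ v : UU (gl r D), (∃ x, (v : Sp (gl r D)) = Sp.line i x) ∧
        (e v : Sp (gl r D)) ∈ range (chart (gl r D) (ch o))}) = Set.univ := by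
      ext i
      simp only [mem_iUnion, mem_univ, iff_true]
      let v : UU (gl r D) := ⟨chart (gl r D) (.inl i) (0, 0), chart_mem_UU _ i _⟩
      have hv : (v : Sp (gl r D)) = Sp.line i 0 := line_eq _ i 0
      rcases hev : (e v : Sp (gl r D)) with ⟨w', y', hy'⟩ | ⟨b, s⟩ | ⟨j, x', y', hy'⟩
      · refine ⟨none, v, ⟨0, hv⟩, ?_⟩
        rw [hev]
        exact ⟨_, base_mem _ i0 w' y' hy'⟩
      · have hb : b ∈ Bad := by
          by_contra hb
          exact hno v b hb s hev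
        refine ⟨some (.inr ⟨b, hb⟩), v, ⟨0, hv⟩, ?_⟩
        rw [hev]
        exact ⟨_, line_eq _ b s⟩
      · refine ⟨some (.inl j), v, ⟨0, hv⟩, ?_⟩
        rw [hev]
        exact ⟨_, gate_eq _ j x' y' hy'⟩
    have hcard : κ ≤ #C * ℵ₀ := by
      calc κ = #(Set.univ : Set ι) := by rw [Cardinal.mk_univ, hι]
        _ = #(⋃ o : C, {i : ι | ∃ v : UU (gl r D), (∃ x, (v : Sp (gl r D)) = Sp.line i x) ∧
            (e v : Sp (gl r D)) ∈ range (chart (gl r D) (ch o))}) := by rw [hcov]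
        _ ≤ Cardinal.sum (fun o : C => #{i : ι | ∃ v : UU (gl r D),
              (∃ x, (v : Sp (gl r D)) = Sp.line i x) ∧
              (e v : Sp (gl r D)) ∈ range (chart (gl r D) (ch o))}) :=
            Cardinal.mk_iUnion_le_sum_mk
        _ ≤ Cardinal.sum (fun _ : C => ℵ₀) := by
            apply Cardinal.sum_le_sum
            intro o
            exact (cnt (gl r D) hG hV e (ch o)).le_aleph0
        _ = #C * ℵ₀ := by rw [Cardinal.sum_const']
    have hJ : #J < κ := by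
      refine lt_of_le_of_lt ?_ hκ
      rw [Cardinal.mk_le_aleph0_iff]
      exact henc.countable
    have hC : #C < κ := by
      have : #C = #J + #Bad + 1 := by
        rw [Cardinal.mk_option, Cardinal.mk_sum]; simp
      rw [this]
      refine Cardinal.add_lt_of_lt hκ.le (Cardinal.add_lt_of_lt hκ.le hJ hbad)
        (Cardinal.one_lt_aleph0.trans hκ)
    exact absurd hcard (not_le.2 (Cardinal.mul_lt_of_lt hκ.le hC hκ))
  obtain ⟨v, b, hb, s, hvb⟩ := hgood
  obtain ⟨O, hO, hvO, hOfin⟩ := hLF v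
  have hR : ∃ ρ > 0, ∀ t, 0 < t → t < ρ →
      chart (gl r D) (.inl b) (s, t) ∈ push (gl r D) e O := by
    have hop : IsOpen (chart (gl r D) (.inl b) ⁻¹' (push (gl r D) e O)) :=
      (isOpen_push _ hV e hO).preimage (continuous_chart _ _)
    have hmem : (s, (0 : ℝ)) ∈ chart (gl r D) (.inl b) ⁻¹' (push (gl r D) e O) := by
      change chart (gl r D) (.inl b) (s, (0 : ℝ)) ∈ push (gl r D) e O
      rw [line_eq, ← hvb]
      exact mem_push _ e hvO
    obtain ⟨ρ, hρ, hb⟩ := Metric.isOpen_iff.1 hop _ hmem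
    refine ⟨ρ, hρ, fun t ht1 ht2 => hb ?_⟩
    rw [Metric.mem_ball, Prod.dist_eq, max_lt_iff]
    simp only [dist_self, Real.dist_eq, sub_zero, abs_of_pos ht1]
    exact ⟨hρ, ht2⟩
  obtain ⟨ρ, hρ, hρR⟩ := hR
  have hinf : {j : J | |r b - D j| < ε j}.Infinite := hb
  obtain ⟨n, hn⟩ := exists_nat_ge |s|
  obtain ⟨j, hj1, hj2⟩ := (hinf.diff (((hδ ρ hρ).union (hencfin n)).union hOfin)).nonempty
  simp only [mem_union, mem_ofPred_eq, not_or, not_le] at hj1 hj2
  obtain ⟨⟨hj2, hj3⟩, hj4⟩ := hj2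
  apply hj4
  have hk : |xg j - s| ≤ |xg j| + enc j := by
    have h1 : |s| ≤ enc j := hn.trans (by exact_mod_cast hj3.le)
    exact (abs_sub _ _).trans (by linarith)
  obtain ⟨t, ht0, ht1, ht2⟩ := hε j (r b - D j) hj1 (xg j - s) hk
  have heq : chart (gl r D) (.inr j) (xg j, t) = chart (gl r D) (.inl b) (s, t) := by
    rw [chart_eq_iff _ (by intro h; injection h)]
    refine ⟨rfl, ht0, ?_⟩
    simp only [gl]
    rw [ht2]; ring
  have h1 := hηN j t ht0 (ht1.trans_le (min_le_left _ _))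
  have h2 := hρR t ht0 ((ht1.trans_le (min_le_right _ _)).trans hj2)
  rw [← heq] at h2
  obtain ⟨_, ⟨v1, hv1, rfl⟩, h3⟩ := h1
  rw [← h3] at h2
  exact ⟨v1, hv1, of_mem_push _ e h2⟩

theorem counterexample : ∃ (M : Type) (_ : TopologicalSpace M)
      (_ : ChartedSpace (EuclideanSpace ℝ (Fin 2)) M),
      T2Space M ∧ ConnectedSpace M ∧ TopologicalSpace.SeparableSpace M ∧
      ∃ U : Set M, IsOpen U ∧ U.Nonempty ∧
        ∀ V : Set M, IsOpen V → Dense V → ¬ Nonempty (U ≃ₜ V) := by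
  obtain ⟨κ, ι, r, hκ, hι, hr, hrD, hconc⟩ := concentrated
  let D : Finset ℕ → ℝ := fun F => tern F
  have hD : Function.Injective D := by
    intro F F' h
    exact Finset.coe_injective (tern_injective h)
  have hne : Nonempty ι := by
    rw [← Cardinal.mk_ne_zero_iff, hι]
    exact (Cardinal.aleph0_pos.trans hκ).ne'
  obtain ⟨i0⟩ := id hne
  have hG := continuous_gl r D
  refine ⟨Sp (gl r D), inferInstance, charted (gl r D) hG, t2 _ hG (gl_ne r D hr hD hrD),
    connected _, separable _, UU (gl r D), isOpen_UU _ hG, ⟨_, chart_mem_UU _ i0 (0, 0)⟩, ?_⟩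
  intro V hV hVd
  exact main_counter r D hκ hι (Encodable.encode) Encodable.encode_injective hconc V hV hVd

end Pool.Agent.H250R3
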