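import Pool.Agent.H250R3.Space
import Pool.Agent.H250R3.Conc

set_option autoImplicit false

open Set Filter Topology
open scoped Cardinal

namespace Pool.Agent.H250R3

/-- oscillating function -/
noncomputable def om (y : ℝ) : ℝ := Real.sqrt y * Real.sin (1 / y)

lemma continuous_om : Continuous om := by
  rw [continuous_iff_continuousAt]
  intro y
  by_cases hy : y = 0
  · subst hy
    have h0 : om 0 = 0 := by simp [om]
    rw [ContinuousAt, h0]
    apply squeeze_zero_norm (a := Real.sqrt)
    · intro t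
      rw [om, norm_mul, Real.norm_eq_abs, Real.norm_eq_abs, abs_of_nonneg (Real.sqrt_nonneg t)]
      have := Real.abs_sin_le_one (1 / t)
      nlinarith [Real.sqrt_nonneg t]
    · have := Real.continuous_sqrt.continuousAt (x := (0 : ℝ))
      rw [ContinuousAt, Real.sqrt_zero] at this
      exact this
  · unfold om
    apply ContinuousAt.mul Real.continuous_sqrt.continuousAt
    exact Real.continuous_sin.continuousAt.comp (continuousAt_const.div continuousAt_id hy)

lemma osc (K η : ℝ) (hK : 0 ≤ K) (hη : 0 < η) : ∃ ε > 0, ∀ β : ℝ, |β| < ε → ∀ k : ℝ, |k| ≤ K →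
    ∃ y, 0 < y ∧ y < η ∧ k * y = β + om y := by
  have hpi := Real.pi_pos
  have hmin : 0 < min η (1 / (K + 1) ^ 2) := lt_min hη (by positivity)
  obtain ⟨n, hn⟩ := exists_nat_gt (1 / (min η (1 / (K + 1) ^ 2)))
  have hn1 : (0 : ℝ) < n := lt_trans (by positivity) hn
  have hpi2 : (2 : ℝ) < Real.pi := by
    have := Real.pi_gt_three
    linarith
  set t1 : ℝ := Real.pi / 2 + n * (2 * Real.pi) with ht1
  set t2 : ℝ := Real.pi / 2 + n * (2 * Real.pi) + Real.pi with ht2
  have ht1n : (n : ℝ) < t1 := by nlinarith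
  have ht1p : 0 < t1 := hn1.trans ht1n
  have ht12 : t1 < t2 := by linarith
  have ht2p : 0 < t2 := ht1p.trans ht12
  have hs1 : Real.sin t1 = 1 := by
    rw [ht1, Real.sin_add_nat_mul_two_pi, Real.sin_pi_div_two]
  have hs2 : Real.sin t2 = -1 := by
    rw [ht2, Real.sin_add_pi, Real.sin_add_nat_mul_two_pi, Real.sin_pi_div_two]
  have hy12 : 1 / t2 < 1 / t1 := one_div_lt_one_div_of_lt ht1p ht12
  have hy1 : 1 / t1 < min η (1 / (K + 1) ^ 2) := by
    rw [div_lt_iff₀ ht1p]
    rw [div_lt_iff₀ hmin] at hn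
    nlinarith
  have hsq : ∀ y : ℝ, 0 < y → y < 1 / (K + 1) ^ 2 → (K + 1) * y < Real.sqrt y := by
    intro y hy hy2
    have h1 : Real.sqrt y * Real.sqrt y = y := Real.mul_self_sqrt hy.le
    have h2 : 0 < Real.sqrt y := Real.sqrt_pos.2 hy
    have h3 : Real.sqrt y < 1 / (K + 1) := by
      rw [show (1 : ℝ) / (K + 1) ^ 2 = (1 / (K + 1)) ^ 2 by field_simp] at hy2
      exact (Real.sqrt_lt' (by positivity)).2 hy2
    rw [lt_div_iff₀ (by positivity)] at h3
    nlinarith
  have hy1p : 0 < 1 / t1 := by positivity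
  have hy2p : 0 < 1 / t2 := by positivity
  refine ⟨1 / t2, hy2p, ?_⟩
  intro β hβ k hk
  rw [abs_lt] at hβ
  rw [abs_le] at hk
  let f : ℝ → ℝ := fun y => β + om y - k * y
  have hf : Continuous f := by
    exact (continuous_const.add continuous_om).sub (continuous_const.mul continuous_id)
  have hf1 : 0 < f (1 / t1) := by
    simp only [f, om]
    rw [one_div_one_div, hs1]
    have := hsq _ hy1p (hy1.trans_le (min_le_right _ _))
    nlinarith
  have hf2 : f (1 / t2) < 0 := by
    simp only [f, om]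
    rw [one_div_one_div, hs2]
    have := hsq _ hy2p (hy12.trans (hy1.trans_le (min_le_right _ _)))
    nlinarith
  obtain ⟨y, hy, hfy⟩ := intermediate_value_Icc hy12.le hf.continuousOn ⟨hf2.le, hf1.le⟩
  refine ⟨y, lt_of_lt_of_le hy2p hy.1, lt_of_le_of_lt hy.2 (hy1.trans_le (min_le_left _ _)), ?_⟩
  simp only [f] at hfy
  linarith

lemma countable_of_separated {X I : Type} [TopologicalSpace X] [SecondCountableTopology X]
    (S : Set I) (z : I → X) (W : I → Set X) (hW : ∀ i ∈ S, IsOpen (W i))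
    (hz : ∀ i ∈ S, z i ∈ W i) (hsep : ∀ i ∈ S, ∀ j ∈ S, z j ∈ W i → i = j) : S.Countable := by
  classical
  obtain ⟨B, hBc, _, hB⟩ := TopologicalSpace.exists_countable_basis X
  have : ∀ i, ∃ b : Set X, i ∈ S → b ∈ B ∧ z i ∈ b ∧ b ⊆ W i := by
    intro i
    by_cases hi : i ∈ S
    · obtain ⟨b, hb1, hb2, hb3⟩ := hB.exists_subset_of_mem_open (hz i hi) (hW i hi)
      exact ⟨b, fun _ => ⟨hb1, hb2, hb3⟩⟩
    · exact ⟨∅, fun h => absurd h hi⟩
  choose b hb using this
  have hmaps : MapsTo b S B := fun i hi => (hb i hi).1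
  refine hmaps.countable_of_injOn ?_ hBc
  intro i hi j hj hij
  apply hsep i hi j hj
  apply (hb i hi).2.2
  rw [hij]
  exact (hb j hj).2.1

variable {ι J : Type} (G : ι ⊕ J → ℝ → ℝ)

/-- the open set -/
def UU : Set (Sp G) := ⋃ i, range (chart G (.inl i))

lemma isOpen_UU (hG : ∀ c, Continuous (G c)) : IsOpen (UU G) :=
  isOpen_iUnion fun i => (isOpenEmbedding_chart G hG _).isOpen_range

lemma chart_mem_UU (i : ι) (p : ℝ × ℝ) : chart G (.inl i) p ∈ UU G :=
  mem_iUnion.2 ⟨i, mem_range_self p⟩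

lemma line_eq (i : ι) (x : ℝ) : chart G (.inl i) (x, 0) = Sp.line i x := by
  simp only [chart, dite_true]

lemma gate_eq (j : J) (x : ℝ) (y : ℝ) (hy : y ≤ 0) :
    chart G (.inr j) (x, y) = Sp.gate j x y hy := by
  simp only [chart, hy, dite_true]

lemma not_gate_mem_UU (j : J) (x y : ℝ) (hy : y ≤ 0) : (Sp.gate j x y hy : Sp G) ∉ UU G := by
  intro h
  obtain ⟨i, p, hp⟩ := mem_iUnion.1 h
  simp only [chart] at hp
  split_ifs at hp

lemma line_mem_range {i : ι} {x : ℝ} {c : ι ⊕ J} (h : (Sp.line i x : Sp G) ∈ range (chart G c)) :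
    c = .inl i := by
  obtain ⟨p, hp⟩ := h
  rcases c with i' | j <;> simp only [chart] at hp <;> split_ifs at hp
  injection hp with h1 h2
  rw [h1]

lemma gate_mem_range {j : J} {x y : ℝ} {hy : y ≤ 0} {c : ι ⊕ J}
    (h : (Sp.gate j x y hy : Sp G) ∈ range (chart G c)) : c = .inr j := by
  obtain ⟨p, hp⟩ := h
  rcases c with i' | j <;> simp only [chart] at hp <;> split_ifs at hp
  injection hp with h1 h2
  rw [h1]

section
variable (hG : ∀ c, Continuous (G c)) {V : Set (Sp G)} (hV : IsOpen V) (e : UU G ≃ₜ V)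
include hG hV

/-- image in the whole space, through `e`, of an open set -/
def push (O : Set (Sp G)) : Set (Sp G) := Subtype.val '' (e '' (Subtype.val ⁻¹' O))

omit hG in
lemma isOpen_push {O : Set (Sp G)} (hO : IsOpen O) : IsOpen (push G e O) := by
  apply hV.isOpenMap_subtype_val
  apply e.isOpenMap
  exact hO.preimage continuous_subtype_val

omit hG hV in
lemma mem_push {O : Set (Sp G)} {u : UU G} (hu : (u : Sp G) ∈ O) : (e u : Sp G) ∈ push G e O :=
  mem_image_of_mem _ (mem_image_of_mem _ hu)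

omit hG hV in
lemma of_mem_push {O : Set (Sp G)} {u : UU G} (hu : (e u : Sp G) ∈ push G e O) :
    (u : Sp G) ∈ O := by
  obtain ⟨v, ⟨u', hu', rfl⟩, h⟩ := hu
  have := e.injective (Subtype.ext h)
  rw [← this]
  exact hu'

lemma cnt (c : ι ⊕ J) : {i : ι | ∃ u : UU G, (∃ x, (u : Sp G) = Sp.line i x) ∧
    (e u : Sp G) ∈ range (chart G c)}.Countable := by
  classical
  set S := {i : ι | ∃ u : UU G, (∃ x, (u : Sp G) = Sp.line i x) ∧
    (e u : Sp G) ∈ range (chart G c)} with hS
  have : ∀ i : ι, ∃ z : ℝ × ℝ, i ∈ S → ∃ u : UU G, (∃ x, (u : Sp G) = Sp.line i x) ∧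
      chart G c z = (e u : Sp G) := by
    intro i
    by_cases hi : i ∈ S
    · obtain ⟨u, hu, z, hz⟩ := hi
      exact ⟨z, fun _ => ⟨u, hu, hz⟩⟩
    · exact ⟨0, fun h => absurd h hi⟩
  choose z hz using this
  apply countable_of_separated S z (fun i => chart G c ⁻¹' (push G e (range (chart G (.inl i)))))
  · intro i _
    exact (isOpen_push G hV e (isOpenEmbedding_chart G hG _).isOpen_range).preimage
      (continuous_chart G c)
  · intro i hi
    obtain ⟨u, ⟨x, hx⟩, hu⟩ := hz i hi
    change chart G c (z i) ∈ push G e (range (chart G (.inl i)))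
    rw [hu]
    apply mem_push
    rw [hx, ← line_eq]
    exact mem_range_self _
  · intro i hi j hj h
    obtain ⟨u, ⟨x, hx⟩, hu⟩ := hz j hj
    change chart G c (z j) ∈ push G e (range (chart G (.inl i))) at h
    rw [hu] at h
    have := of_mem_push G e h
    rw [hx] at this
    have := line_mem_range G this
    injection this

lemma gatepoint (hι : ¬ Countable ι) (hD : Dense V) (j : J) :
    ∃ u : UU G, (∃ x, (e u : Sp G) = Sp.gate j x 0 le_rfl) ∧
      ∃ w y, ∃ hy : y ≠ 0, (u : Sp G) = Sp.base w y hy := by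
  by_contra hno
  push Not at hno
  let T : Set (UU G) := {u | ∃ x, (e u : Sp G) = Sp.gate j x 0 le_rfl}
  have hcnt := cnt G hG hV e (.inr j)
  obtain ⟨i0, hi0⟩ : ∃ i0, i0 ∉ {i : ι | ∃ u : UU G, (∃ x, (u : Sp G) = Sp.line i x) ∧
    (e u : Sp G) ∈ range (chart G (.inr j))} := by
    by_contra hall
    push Not at hall
    apply hι
    rw [← Set.countable_univ_iff]
    exact hcnt.mono (fun i _ => hall i)
  let Y : Set (UU G) := range (fun p : ℝ × ℝ => (⟨chart G (.inl i0) p, chart_mem_UU G i0 p⟩ : UU G))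
  have hYpre : IsPreconnected Y :=
    isPreconnected_range ((continuous_chart G _).subtype_mk _)
  have hYT : Y ⊆ Tᶜ := by
    rintro _ ⟨p, rfl⟩ ⟨x, hx⟩
    by_cases hp : p.2 = 0
    · apply hi0
      refine ⟨⟨chart G (.inl i0) p, chart_mem_UU G i0 p⟩, ⟨p.1, ?_⟩, ?_⟩
      · obtain ⟨a, b⟩ := p
        simp only at hp
        subst hp
        exact line_eq G i0 a
      · rw [hx, ← gate_eq]
        exact mem_range_self _
    · apply hno _ ⟨x, hx⟩ (p.1 + G (.inl i0) p.2 / p.2) p.2 hp
      simp only [chart]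
      rw [dif_neg hp]
  have hYd : Tᶜ ⊆ closure Y := by
    intro u _
    rw [mem_closure_iff]
    intro O hO hu
    obtain ⟨O', hO', rfl⟩ := isOpen_induced_iff.1 hO
    obtain ⟨i, p, hp⟩ := mem_iUnion.1 u.2
    have hu' : chart G (.inl i) p ∈ O' := by rw [hp]; exact hu
    obtain ⟨w, y, hy, hb⟩ := exists_base_in_open G hO' hu'
    have hb2 := base_mem G i0 w y hy
    refine ⟨⟨chart G (.inl i0) (w - G (.inl i0) y / y, y), chart_mem_UU G i0 _⟩, ?_,
      mem_range_self _⟩
    change chart G (.inl i0) (w - G (.inl i0) y / y, y) ∈ O'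
    rw [hb2]; exact hb
  have hTpre : IsPreconnected Tᶜ := hYpre.subset_closure hYT hYd
  have hcont : Continuous (fun u : UU G => (e u : Sp G)) :=
    continuous_subtype_val.comp e.continuous
  have hP : IsPreconnected ((fun u : UU G => (e u : Sp G)) '' Tᶜ) :=
    hTpre.image _ hcont.continuousOn
  let O1 : Set (Sp G) := chart G (.inr j) '' {q | q.2 < 0}
  let O2 : Set (Sp G) := {m | ∀ x y hy, m ≠ Sp.gate j x y hy}
  have hO1 : IsOpen O1 :=
    isOpenMap_chart G hG _ _ (isOpen_lt continuous_snd continuous_const)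
  have hO2 : IsOpen O2 := by
    rw [isOpen_iff]
    intro c
    rcases c with i | j'
    · have : chart G (.inl i) ⁻¹' O2 = univ := by
        ext p
        simp only [mem_preimage, mem_univ, iff_true]
        intro x y hy h
        have hr : (Sp.gate j x y hy : Sp G) ∈ range (chart G (.inl i)) := ⟨p, h⟩
        have := gate_mem_range G hr
        injection this
      rw [this]; exact isOpen_univ
    · by_cases hj : j' = j
      · subst hj
        have : chart G (.inr j') ⁻¹' O2 = {q | 0 < q.2} := by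
          ext p
          simp only [mem_preimage, mem_ofPred_eq]
          constructor
          · intro h
            by_contra hp
            rw [not_lt] at hp
            exact h p.1 p.2 hp (gate_eq G j' p.1 p.2 hp)
          · intro hp x y hy h
            simp only [chart] at h
            rw [dif_neg (not_le.2 hp)] at h
            injection h
        rw [this]; exact isOpen_lt continuous_const continuous_snd
      · have : chart G (.inr j') ⁻¹' O2 = univ := by
          ext p
          simp only [mem_preimage, mem_univ, iff_true]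
          intro x y hy h
          have hr : (Sp.gate j x y hy : Sp G) ∈ range (chart G (.inr j')) := ⟨p, h⟩
          have := gate_mem_range G hr
          injection this with h2
          exact hj h2
        rw [this]; exact isOpen_univ
  have hsub : ((fun u : UU G => (e u : Sp G)) '' Tᶜ) ⊆ O1 ∪ O2 := by
    rintro _ ⟨u, hu, rfl⟩
    by_cases h : ∃ x y hy, (e u : Sp G) = Sp.gate j x y hy
    · obtain ⟨x, y, hy, h⟩ := h
      left
      have hy0 : y < 0 := by
        refine lt_of_le_of_ne hy ?_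
        rintro rfl
        exact hu ⟨x, h⟩
      exact ⟨(x, y), hy0, by rw [gate_eq G j x y hy]; exact h.symm⟩
    · right
      push Not at h
      exact h
  obtain ⟨v1, hv1, hv1V⟩ := hD.inter_open_nonempty O1 hO1 ⟨_, mem_image_of_mem _
    (show ((0 : ℝ), (-1 : ℝ)) ∈ {q : ℝ × ℝ | q.2 < 0} by norm_num)⟩
  obtain ⟨v2, hv2, hv2V⟩ := hD.inter_open_nonempty O2 hO2
    ⟨Sp.base 0 1 one_ne_zero, by intro x y hy h; injection h⟩
  obtain ⟨m, _, hm1, hm2⟩ := hP O1 O2 hO1 hO2 hsub
    ⟨v1, ⟨e.symm ⟨v1, hv1V⟩, by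
      rintro ⟨x, hx⟩
      simp only [Homeomorph.apply_symm_apply] at hx
      obtain ⟨q, hq, rfl⟩ := hv1
      have hq2 : q.2 < 0 := hq
      have := gate_eq G j q.1 q.2 hq2.le
      rw [show (q.1, q.2) = q from rfl] at this
      rw [this] at hx
      injection hx with _ _ h3
      exact hq2.ne h3, by simp⟩, hv1⟩
    ⟨v2, ⟨e.symm ⟨v2, hv2V⟩, by
      rintro ⟨x, hx⟩
      simp only [Homeomorph.apply_symm_apply] at hx
      exact hv2 _ _ _ hx, by simp⟩, hv2⟩
  obtain ⟨q, hq, rfl⟩ := hm1
  have hq2 : q.2 < 0 := hq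
  exact hm2 q.1 q.2 hq2.le (gate_eq G j q.1 q.2 hq2.le)

end

end Pool.Agent.H250R3
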