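import Mathlib

set_option autoImplicit false

open Set Filter Cardinal

namespace Pool.Agent.H250R3

/-- eventual domination -/
def Dom (f g : ℕ → ℕ) : Prop := ∀ᶠ n in atTop, f n ≤ g n

lemma Dom.trans {f g h : ℕ → ℕ} (h1 : Dom f g) (h2 : Dom g h) : Dom f h := by
  filter_upwards [h1, h2] with n a b using a.trans b

/-- a bounded family -/
def Bdd (F : Set (ℕ → ℕ)) : Prop := ∃ h, ∀ f ∈ F, Dom f h

lemma not_bdd_univ : ¬ Bdd univ := by
  rintro ⟨h, hh⟩
  have := hh (fun n => h n + 1) (mem_univ _)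
  obtain ⟨n, hn⟩ := this.exists
  simp at hn

lemma bdd_countable (F : Set (ℕ → ℕ)) (hF : F.Countable) : Bdd F := by
  rcases F.eq_empty_or_nonempty with rfl | hne
  · exact ⟨fun _ => 0, by simp⟩
  obtain ⟨e, he⟩ := hF.exists_eq_range hne
  refine ⟨fun n => ∑ k ∈ Finset.range (n + 1), e k n, ?_⟩
  rw [he]
  rintro _ ⟨k, rfl⟩
  filter_upwards [eventually_ge_atTop k] with n hn
  exact Finset.single_le_sum (f := fun k => e k n) (fun _ _ => Nat.zero_le _)
    (Finset.mem_range.2 (by omega))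

lemma exists_min_unbounded : ∃ F : Set (ℕ → ℕ), ¬ Bdd F ∧ ∀ G : Set (ℕ → ℕ), #G < #F → Bdd G := by
  let S : Set Cardinal.{0} := {c | ∃ F : Set (ℕ → ℕ), ¬ Bdd F ∧ #F = c}
  have hS : S.Nonempty := ⟨#(univ : Set (ℕ → ℕ)), univ, not_bdd_univ, rfl⟩
  obtain ⟨F, hF, hc⟩ := csInf_mem hS
  refine ⟨F, hF, fun G hG => ?_⟩
  by_contra hb
  have : sInf S ≤ #G := csInf_le' ⟨G, hb, rfl⟩
  rw [← hc] at this
  exact absurd hG (not_lt.2 this)

lemma exists_rec {ι : Type} [LT ι] [WellFoundedLT ι] {β : Type}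
    (P : (i : ι) → ((j : ι) → j < i → β) → β → Prop) (h : ∀ i f, ∃ b, P i f b) :
    ∃ a : ι → β, ∀ i, P i (fun j _ => a j) (a i) := by
  classical
  let a : ι → β := (wellFounded_lt (α := ι)).fix (fun i f => Classical.choose (h i f))
  refine ⟨a, fun i => ?_⟩
  have : a i = Classical.choose (h i (fun j _ => a j)) := (wellFounded_lt (α := ι)).fix_eq _ i
  rw [this]
  exact Classical.choose_spec (h i (fun j _ => a j))

theorem scale : ∃ (κ : Cardinal.{0}) (ι : Type) (a : ι → ℕ → ℕ), ℵ₀ < κ ∧ #ι = κ ∧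
    (∀ i, StrictMono (a i)) ∧ Function.Injective a ∧
    ∀ h : ℕ → ℕ, #{i | Dom (a i) h} < κ := by
  obtain ⟨F, hF, hmin⟩ := exists_min_unbounded
  have hκ : ℵ₀ < #F := by
    by_contra hle
    exact hF (bdd_countable F (by rwa [not_lt, mk_le_aleph0_iff] at hle))
  let ι := (#F).ord.ToType
  have hι : #ι = #F := mk_ord_toType _
  obtain ⟨x⟩ : Nonempty (ι ≃ F) := Cardinal.eq.1 hι
  have hrec : ∀ (i : ι) (f : (j : ι) → j < i → (ℕ → ℕ)), ∃ b : ℕ → ℕ,
      StrictMono b ∧ Dom (x i).1 b ∧ ∀ j (hj : j < i), ∀ᶠ n in atTop, f j hj n < b n := by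
    intro i f
    let G : Set (ℕ → ℕ) := insert (x i).1 (range (fun j : Iio i => f j.1 j.2))
    have hG : #G < #F := by
      refine (mk_insert_le).trans_lt ?_
      refine Cardinal.add_lt_of_lt hκ.le ?_ (one_lt_aleph0.trans hκ)
      exact mk_range_le.trans_lt (mk_Iio_toType_ord_lt i)
    obtain ⟨h, hh⟩ := hmin G hG
    refine ⟨fun n => n + 1 + ∑ k ∈ Finset.range (n + 1), h k, ?_, ?_, ?_⟩
    · refine strictMono_nat_of_lt_succ fun n => ?_
      rw [Finset.sum_range_succ _ (n + 1)]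
      omega
    · have := hh _ (mem_insert _ _)
      filter_upwards [this] with n hn
      have : h n ≤ ∑ k ∈ Finset.range (n + 1), h k :=
        Finset.single_le_sum (fun _ _ => Nat.zero_le _) (Finset.mem_range.2 (by omega))
      omega
    · intro j hj
      have := hh (f j hj) (mem_insert_of_mem _ ⟨⟨j, hj⟩, rfl⟩)
      filter_upwards [this] with n hn
      have : h n ≤ ∑ k ∈ Finset.range (n + 1), h k :=
        Finset.single_le_sum (fun _ _ => Nat.zero_le _) (Finset.mem_range.2 (by omega))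
      omega
  obtain ⟨a, ha⟩ := exists_rec _ hrec
  refine ⟨#F, ι, a, hκ, hι, fun i => (ha i).1, ?_, ?_⟩
  · intro i j hij
    by_contra hne
    rcases lt_or_gt_of_ne hne with hlt | hlt
    · obtain ⟨n, hn⟩ := ((ha j).2.2 i hlt).exists
      have hn' : a i n < a j n := hn
      rw [hij] at hn'
      exact lt_irrefl _ hn'
    · obtain ⟨n, hn⟩ := ((ha i).2.2 j hlt).exists
      have hn' : a j n < a i n := hn
      rw [hij] at hn'
      exact lt_irrefl _ hn'
  · intro h
    by_contra hcon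
    apply hF
    refine ⟨h, ?_⟩
    intro f hf
    obtain ⟨j, hj⟩ := x.surjective ⟨f, hf⟩
    have hex : ∃ i, Dom (a i) h ∧ j ≤ i := by
      by_contra hno
      push Not at hno
      apply hcon
      refine lt_of_le_of_lt (mk_le_mk_of_subset ?_) (mk_Iio_toType_ord_lt j)
      intro i hi
      exact hno i hi
    obtain ⟨i, hi, hji⟩ := hex
    have h1 : Dom f (a j) := by
      have := (ha j).2.1
      rwa [hj] at this
    rcases hji.eq_or_lt with rfl | hlt
    · exact h1.trans hi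
    · have h2 : Dom (a j) (a i) := by
        filter_upwards [(ha i).2.2 j hlt] with n hn using hn.le
      exact (h1.trans h2).trans hi

end Pool.Agent.H250R3
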