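import Mathlib

set_option autoImplicit false

open Set Filter Topology

namespace Pool.Agent.H250R3

/-- Underlying set of the surface: the two open half planes, one line for each `i : ι`, and one
closed half plane for each `j : J`. -/
inductive Sp {ι J : Type} (G : ι ⊕ J → ℝ → ℝ) : Type
  | base (w y : ℝ) (hy : y ≠ 0) : Sp G
  | line (i : ι) (x : ℝ) : Sp G
  | gate (j : J) (x y : ℝ) (hy : y ≤ 0) : Sp G

variable {ι J : Type} (G : ι ⊕ J → ℝ → ℝ)

/-- the charts -/
noncomputable def chart : ι ⊕ J → ℝ × ℝ → Sp G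
  | .inl i, p => if h : p.2 = 0 then Sp.line i p.1
      else Sp.base (p.1 + G (.inl i) p.2 / p.2) p.2 h
  | .inr j, p => if h : p.2 ≤ 0 then Sp.gate j p.1 p.2 h
      else Sp.base (p.1 + G (.inr j) p.2 / p.2) p.2 (fun h0 => h (le_of_eq h0))

/-- where two different charts overlap -/
def dom : ι ⊕ J → ι ⊕ J → ℝ → Prop
  | .inl _, .inl _, y => y ≠ 0
  | _, _, y => 0 < y

lemma base_eq {w y w' y' : ℝ} {h h'} : (Sp.base w y h : Sp G) = Sp.base w' y' h' ↔
    w = w' ∧ y = y' := by
  constructor
  · intro e; injection e with h1 h2; exact ⟨h1, h2⟩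
  · rintro ⟨rfl, rfl⟩; rfl

lemma aux_eq {x x' y g g' : ℝ} (hy : y ≠ 0) :
    x + g / y = x' + g' / y ↔ (x - x') * y = g' - g := by
  constructor
  · intro h
    have h2 : (x + g / y) * y = (x' + g' / y) * y := by rw [h]
    rw [add_mul, add_mul, div_mul_cancel₀ _ hy, div_mul_cancel₀ _ hy] at h2
    linarith
  · intro h
    have : x = x' + (g' - g) / y := by
      rw [← h, mul_div_cancel_right₀ _ hy]; ring
    rw [this]
    field_simp
    ring

lemma chart_eq_iff {c c' : ι ⊕ J} (hcc : c ≠ c') (p q : ℝ × ℝ) :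
    chart G c p = chart G c' q ↔
      p.2 = q.2 ∧ dom c c' p.2 ∧ (p.1 - q.1) * p.2 = G c' p.2 - G c p.2 := by
  obtain ⟨x, y⟩ := p
  obtain ⟨x', y'⟩ := q
  rcases c with i | j <;> rcases c' with i' | j' <;> simp only [chart, dom]
  · by_cases hy : y = 0 <;> by_cases hy' : y' = 0
    · simp only [hy, hy', dite_true]
      constructor
      · intro e
        have : (Sp.line i x : Sp G) = Sp.line i' x' := e
        injection this with h1 h2
        exact absurd (by rw [h1]) hcc
      · rintro ⟨_, h, _⟩; exact absurd rfl h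
    · simp only [hy, dite_true, hy', dite_false]
      constructor
      · intro e
        have : (Sp.line i x : Sp G) = Sp.base _ y' hy' := e
        injection this
      · rintro ⟨h, _⟩; exact absurd h.symm hy'
    · simp only [hy, dite_false, hy', dite_true]
      constructor
      · intro e
        have : (Sp.base _ y hy : Sp G) = Sp.line i' x' := e
        injection this
      · rintro ⟨h, _⟩; exact h.elim
    · simp only [hy, hy', dite_false]
      refine (base_eq G).trans ?_
      constructor
      · rintro ⟨h1, rfl⟩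
        exact ⟨rfl, hy, (aux_eq hy).1 h1⟩
      · rintro ⟨rfl, _, h⟩
        exact ⟨(aux_eq hy).2 h, rfl⟩
  · by_cases hy : y = 0 <;> by_cases hy' : y' ≤ 0
    · simp only [hy, hy', dite_true]
      constructor
      · intro e
        have : (Sp.line i x : Sp G) = Sp.gate j' x' y' hy' := e
        injection this
      · rintro ⟨_, h, _⟩; exact absurd h (lt_irrefl _)
    · simp only [hy, dite_true, hy', dite_false]
      constructor
      · intro e
        have : (Sp.line i x : Sp G) = Sp.base _ y' _ := e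
        injection this
      · rintro ⟨h, h2, _⟩; exact absurd h2 (lt_irrefl _)
    · simp only [hy, dite_false, hy', dite_true]
      constructor
      · intro e
        have : (Sp.base _ y hy : Sp G) = Sp.gate j' x' y' hy' := e
        injection this
      · rintro ⟨h, h2, _⟩; exact absurd (h ▸ hy') (not_le.2 h2)
    · simp only [hy, hy', dite_false]
      refine (base_eq G).trans ?_
      constructor
      · rintro ⟨h1, rfl⟩
        exact ⟨rfl, not_le.1 hy', (aux_eq hy).1 h1⟩
      · rintro ⟨rfl, _, h⟩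
        exact ⟨(aux_eq hy).2 h, rfl⟩
  · by_cases hy : y ≤ 0 <;> by_cases hy' : y' = 0
    · simp only [hy, hy', dite_true]
      constructor
      · intro e
        have : (Sp.gate j x y hy : Sp G) = Sp.line i' x' := e
        injection this
      · rintro ⟨_, h, _⟩; exact absurd hy (not_le.2 h)
    · simp only [hy, dite_true, hy', dite_false]
      constructor
      · intro e
        have : (Sp.gate j x y hy : Sp G) = Sp.base _ y' _ := e
        injection this
      · rintro ⟨_, h, _⟩; exact absurd hy (not_le.2 h)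
    · simp only [hy, dite_false, hy', dite_true]
      constructor
      · intro e
        have : (Sp.base _ y _ : Sp G) = Sp.line i' x' := e
        injection this
      · rintro ⟨h, h2, _⟩; exact absurd h2 (h ▸ lt_irrefl _)
    · simp only [hy, hy', dite_false]
      refine (base_eq G).trans ?_
      have hy0 : y ≠ 0 := fun h0 => hy (le_of_eq h0)
      constructor
      · rintro ⟨h1, rfl⟩
        exact ⟨rfl, not_le.1 hy, (aux_eq hy0).1 h1⟩
      · rintro ⟨rfl, _, h⟩
        exact ⟨(aux_eq hy0).2 h, rfl⟩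
  · by_cases hy : y ≤ 0 <;> by_cases hy' : y' ≤ 0
    · simp only [hy, hy', dite_true]
      constructor
      · intro e
        have : (Sp.gate j x y hy : Sp G) = Sp.gate j' x' y' hy' := e
        injection this with h1 h2
        exact absurd (by rw [h1]) hcc
      · rintro ⟨_, h, _⟩; exact absurd hy (not_le.2 h)
    · simp only [hy, dite_true, hy', dite_false]
      constructor
      · intro e
        have : (Sp.gate j x y hy : Sp G) = Sp.base _ y' _ := e
        injection this
      · rintro ⟨_, h, _⟩; exact absurd hy (not_le.2 h)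
    · simp only [hy, dite_false, hy', dite_true]
      constructor
      · intro e
        have : (Sp.base _ y _ : Sp G) = Sp.gate j' x' y' hy' := e
        injection this
      · rintro ⟨h, h2, _⟩; exact absurd (h ▸ hy') (not_le.2 h2)
    · simp only [hy, hy', dite_false]
      refine (base_eq G).trans ?_
      have hy0 : y ≠ 0 := fun h0 => hy (le_of_eq h0)
      constructor
      · rintro ⟨h1, rfl⟩
        exact ⟨rfl, not_le.1 hy, (aux_eq hy0).1 h1⟩
      · rintro ⟨rfl, _, h⟩
        exact ⟨(aux_eq hy0).2 h, rfl⟩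

lemma chart_injective (c : ι ⊕ J) : Function.Injective (chart G c) := by
  rintro ⟨x, y⟩ ⟨x', y'⟩ h
  rcases c with i | j <;> simp only [chart] at h
  · by_cases hy : y = 0 <;> by_cases hy' : y' = 0
    · simp only [hy, hy', dite_true] at h
      have : (Sp.line i x : Sp G) = Sp.line i x' := h
      injection this with h1 h2
      rw [h2, hy, hy']
    · simp only [hy, dite_true, hy', dite_false] at h
      have : (Sp.line i x : Sp G) = Sp.base _ y' hy' := h
      injection this
    · simp only [hy, dite_false, hy', dite_true] at h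
      have : (Sp.base _ y hy : Sp G) = Sp.line i x' := h
      injection this
    · simp only [hy, hy', dite_false] at h
      obtain ⟨h1, rfl⟩ := (base_eq G).1 h
      have := add_right_cancel h1
      rw [this]
  · by_cases hy : y ≤ 0 <;> by_cases hy' : y' ≤ 0
    · simp only [hy, hy', dite_true] at h
      have : (Sp.gate j x y hy : Sp G) = Sp.gate j x' y' hy' := h
      injection this with h1 h2 h3
      rw [h2, h3]
    · simp only [hy, dite_true, hy', dite_false] at h
      have : (Sp.gate j x y hy : Sp G) = Sp.base _ y' _ := h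
      injection this
    · simp only [hy, dite_false, hy', dite_true] at h
      have : (Sp.base _ y _ : Sp G) = Sp.gate j x' y' hy' := h
      injection this
    · simp only [hy, hy', dite_false] at h
      obtain ⟨h1, rfl⟩ := (base_eq G).1 h
      have := add_right_cancel h1
      rw [this]

noncomputable instance : TopologicalSpace (Sp G) :=
  TopologicalSpace.coinduced (fun p : (Σ _ : ι ⊕ J, ℝ × ℝ) => chart G p.1 p.2) inferInstance

lemma isOpen_iff {U : Set (Sp G)} : IsOpen U ↔ ∀ c, IsOpen (chart G c ⁻¹' U) := by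
  rw [isOpen_coinduced, isOpen_sigma_iff]
  rfl

lemma continuous_chart (c : ι ⊕ J) : Continuous (chart G c) := by
  rw [continuous_def]
  intro U hU
  exact (isOpen_iff G).1 hU c

lemma dom_ne {c c' : ι ⊕ J} {y : ℝ} (h : dom c c' y) : y ≠ 0 := by
  rcases c with i | j <;> rcases c' with i' | j' <;> simp only [dom] at h
  · exact h
  all_goals exact h.ne'

lemma isOpen_dom (c c' : ι ⊕ J) : IsOpen {y : ℝ | dom c c' y} := by
  rcases c with i | j <;> rcases c' with i' | j' <;> simp only [dom]
  · exact isOpen_ne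
  all_goals exact isOpen_lt continuous_const continuous_id

lemma isOpenMap_chart (hG : ∀ c, Continuous (G c)) (c : ι ⊕ J) : IsOpenMap (chart G c) := by
  intro O hO
  rw [isOpen_iff]
  intro c'
  by_cases hcc : c = c'
  · subst hcc
    rw [preimage_image_eq _ (chart_injective G c)]
    exact hO
  · have : chart G c' ⁻¹' (chart G c '' O) =
        {q : ℝ × ℝ | dom c c' q.2 ∧ (q.1 + (G c' q.2 - G c q.2) / q.2, q.2) ∈ O} := by
      ext ⟨x, y⟩
      simp only [mem_preimage, mem_image]
      constructor
      · rintro ⟨⟨x', y'⟩, hO', h⟩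
        obtain ⟨h1, h2, h3⟩ := (chart_eq_iff G hcc _ _).1 h
        simp only at h1 h2 h3
        subst h1
        refine ⟨h2, ?_⟩
        have hy := dom_ne h2
        have : x + (G c' y' - G c y') / y' = x' := by
          rw [← h3, mul_div_cancel_right₀ _ hy]; ring
        simp only [this]
        exact hO'
      · rintro ⟨h1, h2⟩
        refine ⟨_, h2, ?_⟩
        rw [chart_eq_iff G hcc]
        refine ⟨rfl, h1, ?_⟩
        have hy := dom_ne h1
        simp only at hy ⊢
        field_simp
        ring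
    rw [this]
    have hD : IsOpen {q : ℝ × ℝ | dom c c' q.2} := (isOpen_dom c c').preimage continuous_snd
    have hcont : ContinuousOn (fun q : ℝ × ℝ => (q.1 + (G c' q.2 - G c q.2) / q.2, q.2))
        {q : ℝ × ℝ | dom c c' q.2} := by
      apply ContinuousOn.prodMk _ continuousOn_snd
      apply ContinuousOn.add continuousOn_fst
      apply ContinuousOn.div
      · exact (((hG c').comp continuous_snd).sub ((hG c).comp continuous_snd)).continuousOn
      · exact continuousOn_snd
      · intro q hq; exact dom_ne hq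
    exact hcont.isOpen_inter_preimage hD hO

lemma exists_chart [Nonempty ι] (m : Sp G) : ∃ c p, chart G c p = m := by
  rcases m with ⟨w, y, hy⟩ | ⟨i, x⟩ | ⟨j, x, y, hy⟩
  · obtain ⟨i⟩ := (inferInstance : Nonempty ι)
    refine ⟨.inl i, (w - G (.inl i) y / y, y), ?_⟩
    simp only [chart, hy, dite_false]
    exact (base_eq G).2 ⟨by ring, rfl⟩
  · refine ⟨.inl i, (x, 0), ?_⟩
    simp only [chart, dite_true]
  · refine ⟨.inr j, (x, y), ?_⟩
    simp [chart, hy]

lemma t2 [Nonempty ι] (hG : ∀ c, Continuous (G c)) (h0 : ∀ c c', c ≠ c' → G c 0 ≠ G c' 0) :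
    T2Space (Sp G) := by
  refine ⟨fun m m' hmm => ?_⟩
  obtain ⟨c, p, rfl⟩ := exists_chart G m
  obtain ⟨c', q, rfl⟩ := exists_chart G m'
  have hclosed : IsClosed {z : (ℝ × ℝ) × (ℝ × ℝ) | chart G c z.1 = chart G c' z.2} := by
    by_cases hcc : c = c'
    · subst hcc
      have : {z : (ℝ × ℝ) × (ℝ × ℝ) | chart G c z.1 = chart G c z.2} = {z | z.1 = z.2} := by
        ext z
        exact (chart_injective G c).eq_iff
      rw [this]
      exact isClosed_eq continuous_fst continuous_snd
    · have hc1 : IsClosed {z : (ℝ × ℝ) × (ℝ × ℝ) | z.1.2 = z.2.2 ∧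
          (z.1.1 - z.2.1) * z.1.2 = G c' z.1.2 - G c z.1.2} := by
        apply IsClosed.and
        · exact isClosed_eq (by fun_prop) (by fun_prop)
        · apply isClosed_eq (by fun_prop)
          have h1 : Continuous fun z : (ℝ × ℝ) × (ℝ × ℝ) => z.1.2 := by fun_prop
          exact ((hG c').comp h1).sub ((hG c).comp h1)
      have hc2 : IsClosed {z : (ℝ × ℝ) × (ℝ × ℝ) | 0 ≤ z.1.2} :=
        isClosed_le continuous_const (by fun_prop)
      have key : ∀ z : (ℝ × ℝ) × (ℝ × ℝ),
          (z.1.1 - z.2.1) * z.1.2 = G c' z.1.2 - G c z.1.2 → z.1.2 ≠ 0 := by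
        intro z hz hz0
        rw [hz0] at hz
        apply h0 c c' hcc
        linarith
      rcases c with i | j <;> rcases c' with i' | j'
      · have : {z : (ℝ × ℝ) × (ℝ × ℝ) | chart G (.inl i) z.1 = chart G (.inl i') z.2} =
            {z : (ℝ × ℝ) × (ℝ × ℝ) | z.1.2 = z.2.2 ∧
          (z.1.1 - z.2.1) * z.1.2 = G (.inl i') z.1.2 - G (.inl i) z.1.2} := by
          ext z
          simp only [mem_ofPred_eq]
          rw [chart_eq_iff G hcc]
          constructor
          · rintro ⟨h1, _, h2⟩; exact ⟨h1, h2⟩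
          · rintro ⟨h1, h2⟩; exact ⟨h1, key z h2, h2⟩
        rw [this]; exact hc1
      · have : {z : (ℝ × ℝ) × (ℝ × ℝ) | chart G (.inl i) z.1 = chart G (.inr j') z.2} =
            {z : (ℝ × ℝ) × (ℝ × ℝ) | z.1.2 = z.2.2 ∧
          (z.1.1 - z.2.1) * z.1.2 = G (.inr j') z.1.2 - G (.inl i) z.1.2} ∩ {z | 0 ≤ z.1.2} := by
          ext z
          simp only [mem_ofPred_eq, mem_inter_iff]
          rw [chart_eq_iff G hcc]
          constructor
          · rintro ⟨h1, h3, h2⟩; exact ⟨⟨h1, h2⟩, le_of_lt h3⟩
          · rintro ⟨⟨h1, h2⟩, h3⟩; exact ⟨h1, lt_of_le_of_ne h3 (key z h2).symm, h2⟩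
        rw [this]; exact hc1.inter hc2
      · have : {z : (ℝ × ℝ) × (ℝ × ℝ) | chart G (.inr j) z.1 = chart G (.inl i') z.2} =
            {z : (ℝ × ℝ) × (ℝ × ℝ) | z.1.2 = z.2.2 ∧
          (z.1.1 - z.2.1) * z.1.2 = G (.inl i') z.1.2 - G (.inr j) z.1.2} ∩ {z | 0 ≤ z.1.2} := by
          ext z
          simp only [mem_ofPred_eq, mem_inter_iff]
          rw [chart_eq_iff G hcc]
          constructor
          · rintro ⟨h1, h3, h2⟩; exact ⟨⟨h1, h2⟩, le_of_lt h3⟩
          · rintro ⟨⟨h1, h2⟩, h3⟩; exact ⟨h1, lt_of_le_of_ne h3 (key z h2).symm, h2⟩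
        rw [this]; exact hc1.inter hc2
      · have : {z : (ℝ × ℝ) × (ℝ × ℝ) | chart G (.inr j) z.1 = chart G (.inr j') z.2} =
            {z : (ℝ × ℝ) × (ℝ × ℝ) | z.1.2 = z.2.2 ∧
          (z.1.1 - z.2.1) * z.1.2 = G (.inr j') z.1.2 - G (.inr j) z.1.2} ∩ {z | 0 ≤ z.1.2} := by
          ext z
          simp only [mem_ofPred_eq, mem_inter_iff]
          rw [chart_eq_iff G hcc]
          constructor
          · rintro ⟨h1, h3, h2⟩; exact ⟨⟨h1, h2⟩, le_of_lt h3⟩
          · rintro ⟨⟨h1, h2⟩, h3⟩; exact ⟨h1, lt_of_le_of_ne h3 (key z h2).symm, h2⟩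
        rw [this]; exact hc1.inter hc2
  have hopen := hclosed.isOpen_compl
  have hpq : (p, q) ∈ {z : (ℝ × ℝ) × (ℝ × ℝ) | chart G c z.1 = chart G c' z.2}ᶜ := hmm
  obtain ⟨A, B, hA, hB, hpA, hqB, hAB⟩ := isOpen_prod_iff.1 hopen p q hpq
  refine ⟨chart G c '' A, chart G c' '' B, isOpenMap_chart G hG c _ hA,
    isOpenMap_chart G hG c' _ hB, mem_image_of_mem _ hpA, mem_image_of_mem _ hqB, ?_⟩
  rw [Set.disjoint_left]
  rintro _ ⟨a, ha, rfl⟩ ⟨b, hb, hab⟩
  exact hAB (mk_mem_prod ha hb) hab.symm

lemma isOpenEmbedding_chart (hG : ∀ c, Continuous (G c)) (c : ι ⊕ J) :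
    IsOpenEmbedding (chart G c) :=
  IsOpenEmbedding.of_continuous_injective_isOpenMap (continuous_chart G c) (chart_injective G c)
    (isOpenMap_chart G hG c)

/-- the plane -/
noncomputable def planeHomeo : EuclideanSpace ℝ (Fin 2) ≃ₜ ℝ × ℝ :=
  (EuclideanSpace.equiv (Fin 2) ℝ).toHomeomorph.trans Homeomorph.finTwoArrow

/-- the manifold structure -/
@[instance_reducible]
noncomputable def charted [Nonempty ι] (hG : ∀ c, Continuous (G c)) :
    ChartedSpace (EuclideanSpace ℝ (Fin 2)) (Sp G) where
  atlas := univ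
  chartAt m := ((isOpenEmbedding_chart G hG (Classical.choose (exists_chart G m))).toOpenPartialHomeomorph
    _).symm.trans planeHomeo.symm.toOpenPartialHomeomorph
  mem_chart_source m := by
    have h := Classical.choose_spec (exists_chart G m)
    obtain ⟨p, hp⟩ := h
    simp only [OpenPartialHomeomorph.trans_source, OpenPartialHomeomorph.symm_source,
      Homeomorph.toOpenPartialHomeomorph_source, preimage_univ, inter_univ]
    simp only [IsOpenEmbedding.toOpenPartialHomeomorph_target]
    exact ⟨p, hp⟩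
  chart_mem_atlas m := mem_univ _

lemma chart_one_eq (c : ι ⊕ J) : chart G c (0 - G c 1 / 1, 1) = (Sp.base 0 1 one_ne_zero : Sp G) := by
  rcases c with i | j <;> simp only [chart]
  · rw [dif_neg (one_ne_zero)]
    exact (base_eq G).2 ⟨by ring, rfl⟩
  · rw [dif_neg (by norm_num)]
    exact (base_eq G).2 ⟨by ring, rfl⟩

lemma connected [Nonempty ι] : ConnectedSpace (Sp G) := by
  have hpre : IsPreconnected (⋃ c, range (chart G c)) := by
    apply isPreconnected_iUnion
    · refine ⟨(Sp.base 0 1 one_ne_zero : Sp G), ?_⟩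
      simp only [mem_iInter]
      intro c
      exact ⟨_, chart_one_eq G c⟩
    · intro c
      exact isPreconnected_range (continuous_chart G c)
  have huniv : (⋃ c, range (chart G c)) = univ := by
    ext m
    simp only [mem_iUnion, mem_univ, iff_true]
    obtain ⟨c, p, h⟩ := exists_chart G m
    exact ⟨c, p, h⟩
  rw [huniv] at hpre
  have hp : PreconnectedSpace (Sp G) := ⟨hpre⟩
  exact { toPreconnectedSpace := hp, toNonempty := ⟨(Sp.base 0 1 one_ne_zero : Sp G)⟩ }

/-- base points are seen in each two sided chart -/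
lemma base_mem (i : ι) (w y : ℝ) (hy : y ≠ 0) :
    chart G (.inl i) (w - G (.inl i) y / y, y) = (Sp.base w y hy : Sp G) := by
  simp only [chart]
  rw [dif_neg hy]
  exact (base_eq G).2 ⟨by ring, rfl⟩

lemma exists_base_in_open {i : ι} {p : ℝ × ℝ} {U : Set (Sp G)} (hU : IsOpen U)
    (hp : chart G (.inl i) p ∈ U) : ∃ w y, ∃ hy : y ≠ 0, (Sp.base w y hy : Sp G) ∈ U := by
  have h1 : IsOpen (chart G (.inl i) ⁻¹' U) := (isOpen_iff G).1 hU _
  have hd : Dense {q : ℝ × ℝ | q.2 ≠ 0} := by
    have : {q : ℝ × ℝ | q.2 ≠ 0} = univ ×ˢ {y : ℝ | y ≠ 0} := by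
      ext q; simp
    rw [this]
    exact dense_univ.prod (dense_compl_singleton (0 : ℝ))
  obtain ⟨q, hq1, hq2⟩ := hd.inter_open_nonempty _ h1 ⟨p, hp⟩
  refine ⟨q.1 + G (.inl i) q.2 / q.2, q.2, hq2, ?_⟩
  have : chart G (.inl i) q ∈ U := hq1
  simp only [chart] at this
  rwa [dif_neg hq2] at this

lemma separable [Nonempty ι] [Countable J] : TopologicalSpace.SeparableSpace (Sp G) := by
  obtain ⟨i0⟩ := (inferInstance : Nonempty ι)
  let f : (Σ _ : Option J, ℝ × ℝ) → Sp G := fun z =>
    match z.1 with
    | none => chart G (.inl i0) z.2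
    | some j => chart G (.inr j) z.2
  have hf : Continuous f := by
    apply continuous_sigma
    intro o
    rcases o with _ | j
    · exact continuous_chart G _
    · exact continuous_chart G _
  have hd : DenseRange f := by
    intro m
    rw [mem_closure_iff]
    intro U hU hm
    obtain ⟨c, p, rfl⟩ := exists_chart G m
    rcases c with i | j
    · obtain ⟨w, y, hy, h⟩ := exists_base_in_open G hU hm
      refine ⟨_, h, ?_⟩
      exact ⟨⟨none, _⟩, base_mem G i0 w y hy⟩
    · exact ⟨_, hm, ⟨⟨some j, p⟩, rfl⟩⟩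
  exact hd.separableSpace hf

end Pool.Agent.H250R3
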